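import Pool.Agent.Lib.MP_b5021c_nt.IfaceALL
import Pool.Agent.Lib.MP_b5021c_nt.K.H25.Exa

/-!
# The exact values of all `m_k` from the exact bounds of all ranks
-/

namespace Pool.Agent.B5.H62

open Polynomial Pool.Agent.MP_b5021c_nt Pool.Agent.B5 Pool.Agent.B5.H25

theorem bn1 : Bn1S := by
  intro θ P L _ _ _ _ _ phi D hD hP hK
  refine ⟨fun h => absurd h (by decide), fun _ => ?_⟩
  have h1 := hP.1
  push_cast
  linarith

theorem bn0 : Bnk 0 := by
  intro θ P L _ _ _ _ _ phi D hD hP hK
  have h1 := hP.1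
  refine ⟨fun _ => ?_, fun h => absurd h (by decide)⟩
  have h2 : 1 / θ < 1 := by
    rw [div_lt_one (by linarith)]
    exact h1
  push_cast
  linarith

theorem tau_le : TauS := by
  intro K θ P L _ _ _ _ _ phi D hB hD hP hK
  have h1 := hB θ P L phi D hD hP hK
  unfold tauK
  split_ifs with h
  · exact quad_le hP.1 (h1.1 h)
  · have h2 := h1.2 (Nat.not_even_iff_odd.mp h)
    linarith

theorem ball (h2 : Bn2S) (h3 : Bn3S) (hE : KeStS) (hO : KoStS) : BallS := by
  intro K
  induction K using Nat.strong_induction_on with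
  | _ K ih =>
    rcases Nat.even_or_odd' K with ⟨j, hj | hj⟩
    · rcases Nat.lt_or_ge j 2 with hj2 | hj2
      · interval_cases j
        · subst hj; exact bn0
        · subst hj; exact h2
      · subst hj
        exact hE j hj2 ih
    · rcases Nat.lt_or_ge j 2 with hj2 | hj2
      · interval_cases j
        · subst hj; exact bn1
        · subst hj; exact h3 h2
      · subst hj
        exact hO j hj2 ih

theorem mall (hT : ThkS) (hG : GdzS) (hU : UpqS) (hL : UplS) : MallS := by
  intro hB k hk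
  rcases Nat.even_or_odd k with he | ho
  · have h1 : ¬ Even (k + 1) := Nat.not_even_iff_odd.mpr he.add_one
    have h2 : tauK (k + 1) = (k : ℝ) / 2 + 1 := by
      unfold tauK
      rw [if_neg h1]
      push_cast
      ring
    rw [h2]
    refine ⟨?_, fun θ hθ => ?_⟩
    · obtain ⟨r, rfl⟩ := he
      have h1 := hL (r + 1) (by omega)
      have h2 : 2 * (r + 1) - 2 = r + r := by omega
      rw [h2] at h1
      have h3 : ((r + r : ℕ) : ℝ) / 2 + 1 = ((r + 1 : ℕ) : ℝ) := by push_cast; ring
      rw [h3]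
      exact h1
    · obtain ⟨D, h3, h4⟩ := exists_dd hT hG k θ hk hθ
      have h5 := (hB (k + 1) (by omega) θ _ _ _ D h3 h4 (Module.finrank_fin_fun ℤ)).2 he.add_one
      push_cast at h5
      linarith
  · have h1 : Even (k + 1) := ho.add_one
    have h2 : tauK (k + 1) = (((k : ℝ) + 1) + Real.sqrt (((k : ℝ) + 1) ^ 2 + 16)) / 4 := by
      unfold tauK
      rw [if_pos h1]
      push_cast
      ring
    rw [h2]
    refine ⟨quad_mem' hU ho, fun θ hθ => ?_⟩
    obtain ⟨D, h3, h4⟩ := exists_dd hT hG k θ hk hθ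
    have h5 := (hB (k + 1) (by omega) θ _ _ _ D h3 h4 (Module.finrank_fin_fun ℤ)).1 h1
    push_cast at h5
    exact quad_le h4.1 h5

/-- THE FINAL STATEMENT from the leaves. -/
theorem mall_all (hT : ThkS) (hG : GdzS) (hU : UpqS) (hL : UplS) (h2 : Bn2S) (h3 : Bn3S)
    (hE : KeStS) (hO : KoStS) : ∀ k : ℕ, 1 ≤ k → IsLeast (PSk k) (tauK (k + 1)) :=
  mall hT hG hU hL fun K _ => ball h2 h3 hE hO K

end Pool.Agent.B5.H62
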