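import Pool.Agent.Lib.MP_b5021c_nt.AM.H44.Fnf
import Pool.Agent.Lib.MP_b5021c_nt.AM.H61.Glc
import Pool.Agent.Lib.MP_b5021c_nt.AllE
import Pool.Agent.Lib.MP_b5021c_nt.BP.H12.Asm
import Pool.Agent.Lib.MP_b5021c_nt.BP.H12.Pb
import Pool.Agent.Lib.MP_b5021c_nt.BP.H12.T2m
import Pool.Agent.Lib.MP_b5021c_nt.BP.H12.Wd
import Pool.Agent.Lib.MP_b5021c_nt.BP.H23.K1
import Pool.Agent.Lib.MP_b5021c_nt.BP.H57.Bv2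
import Pool.Agent.Lib.MP_b5021c_nt.BP.H57.In
import Pool.Agent.Lib.MP_b5021c_nt.BP.H57.Pz
import Pool.Agent.Lib.MP_b5021c_nt.BP.H57.V1
import Pool.Agent.Lib.MP_b5021c_nt.BP.H57.V1z
import Pool.Agent.Lib.MP_b5021c_nt.BP.H71.Fclg
import Pool.Agent.Lib.MP_b5021c_nt.BP.H71.Str
import Pool.Agent.Lib.MP_b5021c_nt.BP.H80.Cnt
import Pool.Agent.Lib.MP_b5021c_nt.BP.H80.LevB
import Pool.Agent.Lib.MP_b5021c_nt.BP.H83.Dec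
import Pool.Agent.Lib.MP_b5021c_nt.BP.H90.Tys
import Pool.Agent.Lib.MP_b5021c_nt.DCM.H61.CaRow
import Pool.Agent.Lib.MP_b5021c_nt.DCM.H61.Main
import Pool.Agent.Lib.MP_b5021c_nt.E.AllE0
import Pool.Agent.Lib.MP_b5021c_nt.E.AllEV
import Pool.Agent.Lib.MP_b5021c_nt.E.H02.Dti
import Pool.Agent.Lib.MP_b5021c_nt.E.H07.Res
import Pool.Agent.Lib.MP_b5021c_nt.E.H07.Top
import Pool.Agent.Lib.MP_b5021c_nt.E.H12.B2b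
import Pool.Agent.Lib.MP_b5021c_nt.E.H12.Trh
import Pool.Agent.Lib.MP_b5021c_nt.E.H19.B3
import Pool.Agent.Lib.MP_b5021c_nt.E.H19.Tss
import Pool.Agent.Lib.MP_b5021c_nt.E.H19.Zco
import Pool.Agent.Lib.MP_b5021c_nt.E.H24.Dua
import Pool.Agent.Lib.MP_b5021c_nt.E.H31.Nbr
import Pool.Agent.Lib.MP_b5021c_nt.E.H33.Uni
import Pool.Agent.Lib.MP_b5021c_nt.E.H36.Ndz
import Pool.Agent.Lib.MP_b5021c_nt.E.H40.One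
import Pool.Agent.Lib.MP_b5021c_nt.E.H42.Irr
import Pool.Agent.Lib.MP_b5021c_nt.E.H45.Fou
import Pool.Agent.Lib.MP_b5021c_nt.E.H47.E4
import Pool.Agent.Lib.MP_b5021c_nt.E.H57.Evz
import Pool.Agent.Lib.MP_b5021c_nt.E.H61.Cusp
import Pool.Agent.Lib.MP_b5021c_nt.E.H61.HAR
import Pool.Agent.Lib.MP_b5021c_nt.E.H61.PSO
import Pool.Agent.Lib.MP_b5021c_nt.E.H62.Mall
import Pool.Agent.Lib.MP_b5021c_nt.E.H63.Sel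
import Pool.Agent.Lib.MP_b5021c_nt.E.H67.O5
import Pool.Agent.Lib.MP_b5021c_nt.E.H67.Trvo
import Pool.Agent.Lib.MP_b5021c_nt.E.H78.Mono
import Pool.Agent.Lib.MP_b5021c_nt.E.H78.Sel
import Pool.Agent.Lib.MP_b5021c_nt.E.H78.Vtx
import Pool.Agent.Lib.MP_b5021c_nt.E.H78.Wps
import Pool.Agent.Lib.MP_b5021c_nt.E.H78.Wst
import Pool.Agent.Lib.MP_b5021c_nt.E.H88.Min
import Pool.Agent.Lib.MP_b5021c_nt.E1.All1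
import Pool.Agent.Lib.MP_b5021c_nt.E1.AllR
import Pool.Agent.Lib.MP_b5021c_nt.E2.H80.Psz2
import Pool.Agent.Lib.MP_b5021c_nt.E2.H80.Trez
import Pool.Agent.Lib.MP_b5021c_nt.IfaceBP
import Pool.Agent.Lib.MP_b5021c_nt.K.H25.Bch
import Pool.Agent.Lib.MP_b5021c_nt.KO.H12.Kodn
import Pool.Agent.Lib.MP_b5021c_nt.KO.H12.Kost
import Pool.Agent.Lib.MP_b5021c_nt.KO.H25.Kv
import Pool.Agent.Lib.MP_b5021c_nt.KO.H29.Ofa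
import Pool.Agent.Lib.MP_b5021c_nt.KO.H29.Ofb
import Pool.Agent.Lib.MP_b5021c_nt.KO.H67.O2
import Pool.Agent.Lib.MP_b5021c_nt.KO.H67.O3b
import Pool.Agent.Lib.MP_b5021c_nt.KO.H67.Pre
import Pool.Agent.Lib.MP_b5021c_nt.KO.H67.Sf2
import Pool.Agent.Lib.MP_b5021c_nt.KV.H03.Vse
import Pool.Agent.Lib.MP_b5021c_nt.KV.H09.Vsr
import Pool.Agent.Lib.MP_b5021c_nt.KV.H29.Fsr
import Pool.Agent.Lib.MP_b5021c_nt.KV.H31.Ext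
import Pool.Agent.Lib.MP_b5021c_nt.KV.H39.Kg
import Pool.Agent.Lib.MP_b5021c_nt.KV.H4.End
import Pool.Agent.Lib.MP_b5021c_nt.KV.H45.Tsg
import Pool.Agent.Lib.MP_b5021c_nt.KV.H47.Ns
import Pool.Agent.Lib.MP_b5021c_nt.KV.H67.Kh
import Pool.Agent.Lib.MP_b5021c_nt.KV.H69.E5
import Pool.Agent.Lib.MP_b5021c_nt.KV.H75.Asm
import Pool.Agent.Lib.MP_b5021c_nt.KV.H88.J2
import Pool.Agent.Lib.MP_b5021c_nt.KV.H94.Ufx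
import Pool.Agent.Lib.MP_b5021c_nt.O1.H12.Bg
import Pool.Agent.Lib.MP_b5021c_nt.O1.H12.Cnt
import Pool.Agent.Lib.MP_b5021c_nt.O1.H39.O2c
import Pool.Agent.Lib.MP_b5021c_nt.O1.H39.O2m
import Pool.Agent.Lib.MP_b5021c_nt.O1.H40.Ii
import Pool.Agent.Lib.MP_b5021c_nt.O1.H40.Iii
import Pool.Agent.Lib.MP_b5021c_nt.O1.H40.Oo1
import Pool.Agent.Lib.MP_b5021c_nt.O1.H42.Nb
import Pool.Agent.Lib.MP_b5021c_nt.O1.H42.Vb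
import Pool.Agent.Lib.MP_b5021c_nt.O1.H73.Io
import Pool.Agent.Lib.MP_b5021c_nt.O1.H73.O1i
import Pool.Agent.Lib.MP_b5021c_nt.O4.H02.Af
import Pool.Agent.Lib.MP_b5021c_nt.O4.H12.Na
import Pool.Agent.Lib.MP_b5021c_nt.O4.H61.Ray
import Pool.Agent.Lib.MP_b5021c_nt.O4V.H21.Sf1
import Pool.Agent.Lib.MP_b5021c_nt.O4V.H21.Typ
import Pool.Agent.Lib.MP_b5021c_nt.O4V.H29.Oa
import Pool.Agent.Lib.MP_b5021c_nt.O4V.H39.A2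
import Pool.Agent.Lib.MP_b5021c_nt.O4V.H40.Asm
import Pool.Agent.Lib.MP_b5021c_nt.O4V.H40.End
import Pool.Agent.Lib.MP_b5021c_nt.O4V.H52.T1
import Pool.Agent.Lib.MP_b5021c_nt.O4V.H52.T11r
import Pool.Agent.Lib.MP_b5021c_nt.O4V.H96.E2
import Pool.Agent.Lib.MP_b5021c_nt.O4V.H96.T00
import Pool.Agent.Lib.MP_b5021c_nt.OF.H24.On2
import Pool.Agent.Lib.MP_b5021c_nt.OF.H29.Ndw
import Pool.Agent.Lib.MP_b5021c_nt.OF.H29.Of1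
import Pool.Agent.Lib.MP_b5021c_nt.OF.H40.Dat
import Pool.Agent.Lib.MP_b5021c_nt.OF.H47.Rec
import Pool.Agent.Lib.MP_b5021c_nt.OF.H64.Fc4
import Pool.Agent.Lib.MP_b5021c_nt.OF.H74.Nu2
import Pool.Agent.Lib.MP_b5021c_nt.OF.H75.Bgr
import Pool.Agent.Lib.MP_b5021c_nt.OF.H78.Fcm
import Pool.Agent.Lib.MP_b5021c_nt.OF.H79.One
import Pool.Agent.Lib.MP_b5021c_nt.OF.H84.Onu
import Pool.Agent.Lib.MP_b5021c_nt.OF.H97.Fc3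
import Pool.Agent.Lib.MP_b5021c_nt.SF.H09.Czi
import Pool.Agent.Lib.MP_b5021c_nt.SF.H09.Czm
import Pool.Agent.Lib.MP_b5021c_nt.SF.H24.Ldz
import Pool.Agent.Lib.MP_b5021c_nt.SF.H27.Big
import Pool.Agent.Lib.MP_b5021c_nt.SF.H38.Nbz
import Pool.Agent.Lib.MP_b5021c_nt.SF.H39.Sfz
import Pool.Agent.Lib.MP_b5021c_nt.SF.H40.Tza
import Pool.Agent.Lib.MP_b5021c_nt.SF.H45.Tpw
import Pool.Agent.Lib.MP_b5021c_nt.SF.H59.Fjt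
import Pool.Agent.Lib.MP_b5021c_nt.SF.H74.Dic
import Pool.Agent.Lib.MP_b5021c_nt.SF.H76.Gai
import Pool.Agent.Lib.MP_b5021c_nt.SF.H76.QsgB
import Pool.Agent.Lib.MP_b5021c_nt.SF.H88.Hpg
import Pool.Agent.Lib.MP_b5021c_nt.SF.H98.Cza
import Pool.Agent.Lib.MP_b5021c_nt.UF.H02.Ccn2
import Pool.Agent.Lib.MP_b5021c_nt.UF.H07.Fb
import Pool.Agent.Lib.MP_b5021c_nt.UF.H07.Subz
import Pool.Agent.Lib.MP_b5021c_nt.UF.H07.W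
import Pool.Agent.Lib.MP_b5021c_nt.UF.H19.Dcp
import Pool.Agent.Lib.MP_b5021c_nt.UF.H83.Av
import Pool.Agent.Lib.MP_b5021c_nt.UF.H83.Ccng
import Pool.Agent.Lib.MP_b5021c_nt.UF.H83.Cno
import Pool.Agent.Lib.MP_b5021c_nt.UF.H83.UfgAll
import Pool.Agent.Lib.MP_b5021c_nt.UF.H83.Ufr
import Pool.Agent.Lib.MP_b5021c_nt.W.H1.CeRow
import Pool.Agent.Lib.MP_b5021c_nt.W.H1.O1Row
import Pool.Agent.Lib.MP_b5021c_nt.W.H1.O1Row2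
import Pool.Agent.Lib.MP_b5021c_nt.W.H80.Ke
import Pool.Agent.Lib.MP_b5021c_nt.W.H80.Ko
import Pool.Agent.Lib.MP_b5021c_nt.Z.H39.Ef

/-!
# MP_b5021c_nt, ALL `θ`: generated assembly of the rows beyond AllE
-/

namespace Pool.Agent.MP_b5021c_nt.AllT3

theorem ev11 : Pool.Agent.B5.BdV ℤ 1 1 :=
  Pool.Agent.B5.H25.Bch.bdV_bc le_rfl AllE.r_EvrS.1

theorem r_CziS : Pool.Agent.B5.CziS :=
  @Pool.Agent.B5.H09.sf_czi AllE.r_FatS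

theorem r_TpwS : Pool.Agent.B5.TpwS :=
  @Pool.Agent.B5.H45.sf_tpw AllE.r_Tp1S AllE.r_Tp2S AllE.r_Tp3S AllE.r_TpiS AllE.r_TprS AllE.r_NnwS AllE.r_EvRS AllE.r_ZfinS AllE.r_SharpS

theorem r_LdzS : Pool.Agent.B5.LdzS :=
  @Pool.Agent.B5.H24ldz.ldz AllE.r_E2S

theorem r_FjtS : Pool.Agent.B5.FjtS :=
  @Pool.Agent.B5.SFH59.fjt_of AllE.r_GenS AllE.r_Nr3S

theorem r_HpgS : Pool.Agent.B5.HpgS :=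
  @Pool.Agent.B5.SFH88.hpg_st AllE.r_Hp3S

theorem r_DicS : Pool.Agent.B5.DicS :=
  @Pool.Agent.B5.SF.H74.sf_dic 

theorem r_QsgS : Pool.Agent.B5.QsgS :=
  @Pool.Agent.B5.H76.sf_qsg_st AllE.r_SmallS AllE.r_QstS AllE.r_Dv3S AllE.r_Nn3S AllE.r_Hp3S AllE.r_GenS AllE.r_SlEvalS AllE.r_EvRS AllE.r_SharpS AllE.r_DensS AllE.r_ZfinS AllE.r_UnitAS AllE.r_FaceS AllE.r_StSpecS AllE.r_MultiS AllE.r_E2S AllE.r_PrimS AllE.r_B3S AllE.r_FullS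

theorem r_EvmS : Pool.Agent.B5.EvmS :=
  @Pool.Agent.B5.AllEV.evmS 

theorem r_LsnS : Pool.Agent.B5.LsnS :=
  @Pool.Agent.B5.AllEV.lsnS 

theorem r_EvS : Pool.Agent.B5.EvS :=
  @Pool.Agent.B5.AllEV.evS AllE.r_TrvS AllE.r_EvtS

theorem r_CplS : Pool.Agent.B5.CplS :=
  @Pool.Agent.B5.AllE0.cplS 

theorem r_SymLS : Pool.Agent.B5.SymLS :=
  @Pool.Agent.B5.AllE0.symLS 

theorem r_LatResS : Pool.Agent.B5.LatResS :=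
  @Pool.Agent.B5.AllE0.latResS 

theorem r_FptS : Pool.Agent.B5.FptS :=
  @Pool.Agent.B5.AllE0.fptS 

theorem r_FspS : Pool.Agent.B5.FspS :=
  @Pool.Agent.B5.AllE0.fspS 

theorem r_DuaS : Pool.Agent.B5.DuaS :=
  @Pool.Agent.B5.H24dua.dua 

theorem r_ZcoS : Pool.Agent.B5.ZcoS :=
  @Pool.Agent.B5.H19.zco 

theorem r_TsaS : Pool.Agent.B5.TsaS :=
  @Pool.Agent.B5.H19.tsa AllE.r_SmallS AllE.r_QstS AllE.r_QraS AllE.r_MinS AllE.r_Coeff0S AllE.r_B5aS AllE.r_RkS AllE.r_KmuS AllE.r_ClpS AllE.r_G1pS AllE.r_MmulS AllE.r_MVS AllE.r_E1S AllE.r_PCZS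

theorem r_TsbS : Pool.Agent.B5.TsbS :=
  @Pool.Agent.B5.H19.tsb AllE.r_SmallS AllE.r_QstS AllE.r_QraS AllE.r_MinS AllE.r_Coeff0S AllE.r_B5aS AllE.r_RkS AllE.r_KmuS AllE.r_ClpS AllE.r_G1pS AllE.r_MmulS AllE.r_MVS AllE.r_E1S AllE.r_PCZS AllE.r_Qc3S AllE.r_Dv3S AllE.r_Nd3S AllE.r_Nr3S

theorem r_ResKS : Pool.Agent.B5.ResKS :=
  @Pool.Agent.B5.H07.resK AllE.r_UnitAS AllE.r_VcoS AllE.r_RkS AllE.r_MultiS AllE.r_StSpecS AllE.r_B2cS AllE.r_G0S AllE.r_EvRS AllE.r_A3bS AllE.r_ZfinS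

theorem r_TopS : Pool.Agent.B5.TopS :=
  @Pool.Agent.B5.H07.top AllE.r_UnitAS AllE.r_VcoS AllE.r_RkS

theorem r_SelxS : Pool.Agent.B5.SelxS :=
  @Pool.Agent.B5.H63.Sel.selx AllE.r_E2S AllE.r_F3S AllE.r_RkUSS AllE.r_LMNS

theorem r_E3vgS : Pool.Agent.B5.H67.E3vgS :=
  @Pool.Agent.B5.H67.e3vg AllE.r_Qc3S AllE.r_E2S AllE.r_Nd3vS AllE.r_Dv3S AllE.r_Qm3S AllE.r_Ta3S AllE.r_Um3vS AllE.r_St3S AllE.r_Sw3S AllE.r_EvRS AllE.r_ZfinS AllE.r_Nn3S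

theorem r_HarS : Pool.Agent.B5.HarS :=
  @Pool.Agent.B5.H61.har 

theorem r_PsoS : Pool.Agent.B5.PsoS :=
  @Pool.Agent.B5.H61.pso AllE.r_PscS r_HarS

theorem r_CuspS : Pool.Agent.B5.H61.CuspS :=
  @Pool.Agent.B5.H61.cusp AllE.r_MfcS AllE.r_Ca5S AllE.r_Cu5S

theorem r_IrrKS : Pool.Agent.B5.IrrKS :=
  @Pool.Agent.B5.H42.Irr.irrK r_ResKS AllE.r_FactS AllE.r_Coeff0S AllE.r_E1S AllE.r_MVS AllE.r_MmulS AllE.r_M1S AllE.r_C4S AllE.r_E2S AllE.r_UnitAS AllE.r_ThinS AllE.r_WWfS AllE.r_B5aS AllE.r_FDS AllE.r_VcoS AllE.r_EvRS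

theorem r_MinSS : Pool.Agent.B5.MinSS :=
  @Pool.Agent.B5.H88.AM.min_st r_CplS r_SymLS r_LatResS r_FptS

theorem r_EvzS : Pool.Agent.B5.EvzS :=
  @Pool.Agent.B5.H57.evz AllE.r_EvrS

theorem r_NdzS : Pool.Agent.B5.NdzS :=
  @Pool.Agent.B5.H36.ndz AllE.r_F1S AllE.r_McoS

theorem r_PsbS : Pool.Agent.B5.H12.PsbS :=
  @Pool.Agent.B5.H12.psb AllE.r_PCZS AllE.r_PscS r_PsoS AllE.r_PmfS

theorem r_WpsS : Pool.Agent.B5.WpsS :=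
  @Pool.Agent.B5.H78.ef_wps 

theorem r_SllS : Pool.Agent.B5.SllS :=
  @Pool.Agent.B5.H78.sel AllE.r_Sl4S AllE.r_LMNS AllE.r_RkUSS

theorem r_WstS : Pool.Agent.B5.WstS :=
  @Pool.Agent.B5.H78.ef_wst r_WpsS AllE.r_HurS AllE.r_A3aS AllE.r_B3S

theorem r_MonoS : Pool.Agent.B5.MonoS :=
  @Pool.Agent.B5.H78.Mono.mono AllE.r_EvRS AllE.r_A1S AllE.r_M1S AllE.r_SlMulS AllE.r_SharpS AllE.r_ExtS AllE.r_StSpecS AllE.r_FaceS AllE.r_B2cS AllE.r_B3S AllE.r_Coeff0S AllE.r_B4S AllE.r_PrimS AllE.r_C2S AllE.r_C3S AllE.r_RaySpanS AllE.r_RkS AllE.r_MVS AllE.r_E1S AllE.r_ThinS AllE.r_D3S AllE.r_ComplIrrS AllE.r_ComplS AllE.r_ResWDS AllE.r_ResStS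

theorem r_VtxS : Pool.Agent.B5.VtxS :=
  @Pool.Agent.B5.H78.ef_vtx 

theorem r_MnfS : Pool.Agent.B5.MnfS :=
  @Pool.Agent.B5.E4.mnf AllE.r_F1S AllE.r_McoS

theorem r_MpaS : Pool.Agent.B5.MpaS :=
  @Pool.Agent.B5.E4.mpa AllE.r_F1S AllE.r_McoS

theorem r_RnkS : Pool.Agent.B5.RnkS :=
  @Pool.Agent.B5.E4.rnk AllE.r_F1S AllE.r_KmuS AllE.r_RkS AllE.r_McoS

theorem r_DcpS : Pool.Agent.B5.DcpS :=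
  @Pool.Agent.B5.UF.H19.dcp AllE.r_MultiS AllE.r_StSpecS AllE.r_B2cS AllE.r_G0S AllE.r_EvRS AllE.r_A3bS AllE.r_ZfinS AllE.r_UnitAS AllE.r_ComplIrrS AllE.r_ComplS AllE.r_RkS AllE.r_FclS r_EvzS ev11

theorem r_UffS : Pool.Agent.B5.UffS :=
  @Pool.Agent.B5.Uf07.uff_st 

theorem r_UfwS : Pool.Agent.B5.UfwS :=
  @Pool.Agent.B5.Uf07.ufw_st AllE.r_E2S AllE.r_PCZS AllE.r_FDS AllE.r_SmallS AllE.r_G4S r_MonoS AllE.r_E1S AllE.r_MVS AllE.r_MmulS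

theorem r_SubzS : Pool.Agent.B5.SubzS :=
  @Pool.Agent.B5.Uf07.subz_st AllE.r_UnitAS

theorem r_CnoS : Pool.Agent.B5.Cno.CnoS :=
  @Pool.Agent.B5.Cno.cno AllE.r_MultiS AllE.r_StSpecS AllE.r_EvRS AllE.r_E2S AllE.r_G0S

theorem r_CresqS : Pool.Agent.B5.UF.H74.CresqS :=
  @Pool.Agent.B5.H02.cresq AllE.r_MultiS AllE.r_StSpecS AllE.r_G0S AllE.r_EvRS AllE.r_E2S

theorem r_CcnS : Pool.Agent.B5.CcnS :=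
  @Pool.Agent.B5.H02.ccn2 AllE.r_MultiS AllE.r_StSpecS AllE.r_G0S AllE.r_EvRS AllE.r_E2S AllE.r_PrimS AllE.r_A5S AllE.r_A7S

theorem r_FulS : Pool.Agent.B5.FulS :=
  @Pool.Agent.B5.Z.H39.ful AllE.r_C2S AllE.r_B4S AllE.r_SharpS AllE.r_StSpecS AllE.r_Coeff0S AllE.r_SlMulS

theorem r_WdvS : Pool.Agent.B5.WdvS :=
  @Pool.Agent.B5.Z.H39.wdv r_WstS r_FulS AllE.r_C1S AllE.r_PrimS

theorem r_WhoS : Pool.Agent.B5.WhoS :=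
  @Pool.Agent.B5.Z.H39.who 

theorem r_DcmS : Pool.Agent.B5.DcmS :=
  @Pool.Agent.B5.Dcm.dcm_st AllE.r_MultiS AllE.r_StSpecS AllE.r_B2cS AllE.r_G0S AllE.r_EvRS AllE.r_A3bS AllE.r_ZfinS AllE.r_MinS AllE.r_SlMulS AllE.r_Coeff0S AllE.r_C1aS AllE.r_C1bS AllE.r_PrimS AllE.r_FactS AllE.r_WWfS AllE.r_RkS r_LatResS

theorem r_DcvS : Pool.Agent.B5.DcvS :=
  @Pool.Agent.B5.Dcm.dcv_st r_DcmS AllE.r_PrimS AllE.r_KerEvS AllE.r_M1S AllE.r_MmulS AllE.r_A7S AllE.r_MVS AllE.r_G0S AllE.r_RkS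

theorem r_NdwS : Pool.Agent.B5.NdwS :=
  @Pool.Agent.B5.OFH29.ndw AllE.r_F1S AllE.r_McoS AllE.r_RaySpanS AllE.r_E2S AllE.r_Inj1S AllE.r_VcoS AllE.r_I2S

theorem r_OnuS : Pool.Agent.B5.OnuS :=
  @Pool.Agent.B5.OF84.onu_st 

theorem r_BgrS : Pool.Agent.B5.BgrS :=
  @Pool.Agent.B5.OF.H75.of_bgr_st AllE.r_ClpS AllE.r_E1S AllE.r_G1pS AllE.r_MmulS AllE.r_MVS AllE.r_RkS

theorem r_FcmS : Pool.Agent.B5.FcmS :=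
  @Pool.Agent.B5.H78.Fcm.fcm AllE.r_E2S AllE.r_PolyS AllE.r_AsanoS

theorem r_OndS : Pool.Agent.B5.OndS :=
  @Pool.Agent.B5.OF.H74.ond 

theorem r_RecS : Pool.Agent.B5.RecS :=
  @Pool.Agent.B5.OF47.rec_st 

theorem r_O4t00S : Pool.Agent.B5.O4t00S :=
  @Pool.Agent.B5.O4.t00 r_FcmS AllE.r_McoS

theorem r_O4t01S : Pool.Agent.B5.O4t01S :=
  @Pool.Agent.B5.O4.t01 r_FcmS AllE.r_McoS AllE.r_Nd3S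

theorem r_O4endS : Pool.Agent.B5.O4endS :=
  @Pool.Agent.B5.O4V.o4end AllE.r_PCZS AllE.r_E1S AllE.r_MVS AllE.r_MmulS AllE.r_RkS AllE.r_G0S

theorem r_O4t10S : Pool.Agent.B5.O4t10S :=
  @Pool.Agent.B5.O4V52.o4t10 AllE.r_UnitRS

theorem r_O4tnS : Pool.Agent.B5.O4tnS :=
  @Pool.Agent.B5.O4V52.o4tn AllE.r_UnitRS

theorem r_SnrS : Pool.Agent.B5.Nr.SnrS :=
  @Pool.Agent.B5.Nr.snr' 

theorem r_LinS : Pool.Agent.B5.E1.LinS :=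
  @Pool.Agent.B5.E1.lin' 

theorem r_O1cS : Pool.Agent.B5.O1cS :=
  @Pool.Agent.B5.O1.H12.o1c AllE.r_SmallS AllE.r_QstS AllE.r_Qp3S AllE.r_KerEvS AllE.r_MmulS AllE.r_MVS AllE.r_E1S AllE.r_Db3S AllE.r_Nn3S AllE.r_Hp3S AllE.r_GenS AllE.r_SlEvalS AllE.r_EvRS AllE.r_SharpS AllE.r_DensS AllE.r_ZfinS AllE.r_UnitAS AllE.r_FaceS AllE.r_StSpecS AllE.r_MultiS AllE.r_E2S AllE.r_PrimS AllE.r_B3S AllE.r_FullS AllE.r_Nd3S AllE.r_PsnS r_SnrS AllE.r_G1pS AllE.r_ClpS r_EvzS ev11 AllE.r_FclS AllE.r_RkS AllE.r_ExtS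

theorem r_Io2S : Pool.Agent.B5.Io2S :=
  @Pool.Agent.B5.H73.io2 

theorem r_Io3S : Pool.Agent.B5.Io3S :=
  @Pool.Agent.B5.H73.io3 

theorem r_O2cS : Pool.Agent.B5.O2cS :=
  @Pool.Agent.B5.H39.o2c_st 

theorem r_O2mS : Pool.Agent.B5.O2mS :=
  @Pool.Agent.B5.H39.o2m_st 

theorem r_KvvS : Pool.Agent.B5.KvvS :=
  @Pool.Agent.B5.KV.H09.kvv r_MnfS AllE.r_McoS AllE.r_VcoS AllE.r_F1S AllE.r_LMNS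

theorem r_TsgS : Pool.Agent.B5.TsgS :=
  @Pool.Agent.B5.KV.H45.tsg_st AllE.r_QstS AllE.r_QraS AllE.r_MinS AllE.r_Coeff0S AllE.r_B5aS AllE.r_RkS AllE.r_KmuS AllE.r_Qc3S AllE.r_Dv3S

theorem r_KvfS : Pool.Agent.B5.KvfS :=
  @Pool.Agent.B5.KVH29.fsr AllE.r_RaySpanS AllE.r_E2S

theorem r_KvhS : Pool.Agent.B5.KvhS :=
  @Pool.Agent.B5.KV67.kvh AllE.r_M1S AllE.r_MVS AllE.r_MfcS AllE.r_McoS AllE.r_F1S AllE.r_RkS AllE.r_KmuS r_FspS AllE.r_VcoS r_KvfS r_KvvS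

theorem r_KvxS : Pool.Agent.B5.KvxS :=
  @Pool.Agent.B5.KV31.kvx r_EvzS ev11 AllE.r_FclS AllE.r_MmulS AllE.r_E1S AllE.r_MVS AllE.r_ResWDS AllE.r_ResStS

theorem r_KvyS : Pool.Agent.B5.KvyS :=
  @Pool.Agent.B5.KV.H69.e5_st 

theorem r_KvjS : Pool.Agent.B5.KvjS :=
  @Pool.Agent.B5.KV88.kvj AllE.r_FDS AllE.r_DusS AllE.r_TpfS AllE.r_TpmS AllE.r_PaiS AllE.r_PmfS AllE.r_PavS AllE.r_MmulS AllE.r_MVS AllE.r_E2S AllE.r_EvRS AllE.r_ZfinS r_LinS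

theorem r_KvkS : Pool.Agent.B5.KvkS :=
  @Pool.Agent.B5.KV39.kg AllE.r_MfcS r_RnkS AllE.r_M1S AllE.r_MVS AllE.r_RkS AllE.r_McoS AllE.r_MugS

theorem r_K1S : Pool.Agent.B5.BPR.K1S :=
  @Pool.Agent.B5.BP23.k1s AllE.r_MultiS AllE.r_StSpecS AllE.r_B2cS AllE.r_G0S AllE.r_EvRS AllE.r_A3bS AllE.r_ZfinS AllE.r_UnitAS AllE.r_ComplIrrS AllE.r_ComplS AllE.r_RkS AllE.r_FclS r_EvS r_EvmS AllE.r_E2S AllE.r_VZS AllE.r_UnitRS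

theorem r_CntS : Pool.Agent.B5.BPR.CntS :=
  @Pool.Agent.B5.BP80.cntS AllE.r_FDS AllE.r_SmallS AllE.r_E2S AllE.r_VZS AllE.r_UnitRS AllE.r_MmulS AllE.r_MVS AllE.r_E1S AllE.r_G1pS r_EvzS ev11 AllE.r_FclS AllE.r_ResWDS AllE.r_ResStS AllE.r_RkS AllE.r_KmuS

theorem r_InS : Pool.Agent.B5.BPR.InS :=
  @Pool.Agent.B5.BP57.inS AllE.r_G0S AllE.r_Coeff0S AllE.r_MmulS AllE.r_E1S AllE.r_MVS AllE.r_M1S AllE.r_UnitRS AllE.r_E2S AllE.r_VZS AllE.r_WWfS AllE.r_RayFacS AllE.r_ResWDS AllE.r_ResStS AllE.r_RkS AllE.r_FDS AllE.r_SmallS AllE.r_KmuS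

theorem r_V1S : Pool.Agent.B5.BP57.V1S :=
  @Pool.Agent.B5.BP57.v1 AllE.r_TrgS AllE.r_PaiS AllE.r_PavS r_HarS AllE.r_PmfS AllE.r_SntS AllE.r_E2S AllE.r_EvRS AllE.r_UnitRS AllE.r_M1S AllE.r_MVS

theorem r_V1zS : Pool.Agent.B5.BP57.V1zS :=
  @Pool.Agent.B5.BP57.v1z AllE.r_TrgS AllE.r_PaiS AllE.r_PavS r_HarS AllE.r_PmfS AllE.r_SntS AllE.r_E2S AllE.r_EvRS AllE.r_UnitRS AllE.r_M1S AllE.r_MVS r_LinS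

theorem r_McOneS : Pool.Agent.B5.BP12.McOneS :=
  @Pool.Agent.B5.BP12.mcOneS AllE.r_SmallS AllE.r_QstS AllE.r_Qp3S AllE.r_KerEvS AllE.r_MmulS AllE.r_MVS AllE.r_E1S AllE.r_Db3S AllE.r_Nn3S AllE.r_Hp3S AllE.r_GenS AllE.r_SlEvalS AllE.r_EvRS AllE.r_SharpS AllE.r_DensS AllE.r_ZfinS AllE.r_UnitAS AllE.r_FaceS AllE.r_StSpecS AllE.r_MultiS AllE.r_E2S AllE.r_PrimS AllE.r_B3S AllE.r_FullS AllE.r_G1pS r_LsnS AllE.r_ResWDS AllE.r_ResStS r_EvS r_EvmS AllE.r_UnitRS AllE.r_VZS AllE.r_RkS AllE.r_Nd3vS AllE.r_Nr3S r_HpgS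

theorem r_T2mS : Pool.Agent.B5.BPR.T2mS :=
  @Pool.Agent.B5.BP12.t2mS r_McOneS AllE.r_FDS AllE.r_E2S AllE.r_VZS AllE.r_UnitRS AllE.r_MVS AllE.r_E1S AllE.r_M1S AllE.r_MmulS AllE.r_G0S AllE.r_Coeff0S AllE.r_WWfS AllE.r_RayFacS AllE.r_QstS AllE.r_QraS AllE.r_MinS AllE.r_B5aS AllE.r_RkS AllE.r_KmuS AllE.r_Qc3S AllE.r_Dv3S AllE.r_Nd3vS AllE.r_LMNS AllE.r_RkUSS AllE.r_D2S AllE.r_F1S AllE.r_F2S AllE.r_McoS AllE.r_D3S r_MpaS AllE.r_VcoS AllE.r_G1pS AllE.r_ResWDS AllE.r_ResStS r_EvS AllE.r_EvRS r_EvmS AllE.r_FclS r_CnoS AllE.r_Qm3S AllE.r_Nr3S r_HpgS AllE.r_Ta3S AllE.r_Um3vS AllE.r_St3S AllE.r_Sw3S AllE.r_ZfinS AllE.r_Nn3S AllE.r_SmallS r_V1S r_V1zS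

theorem r_AdjS : Pool.Agent.B5.BPR.AdjS :=
  @Pool.Agent.B5.BP12.adjS AllE.r_GenS AllE.r_F1S AllE.r_F2S AllE.r_VcoS AllE.r_D3S AllE.r_RkS

theorem r_FclgS : Pool.Agent.B5.H71.FclgS :=
  @Pool.Agent.B5.H71.fclg r_VtxS r_WstS r_WpsS r_WdvS r_WhoS AllE.r_ComplIrrS AllE.r_ComplS AllE.r_PrimS

theorem r_FclwS : Pool.Agent.B5.H71.FclwS :=
  @Pool.Agent.B5.H71.fclw r_FclgS

theorem r_FnfS : Pool.Agent.B5.FnfS :=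
  @Pool.Agent.B5.H44.fnf_st AllE.r_F1S AllE.r_RaySpanS AllE.r_E2S r_TopS

theorem r_O4rayS : Pool.Agent.B5.O4rayS :=
  @Pool.Agent.B5.O4H61.o4ray AllE.r_SpjS AllE.r_Inj2S AllE.r_RkS

theorem r_O4naS : Pool.Agent.B5.O4naS :=
  @Pool.Agent.B5.O4.H12.o4na AllE.r_DusS AllE.r_TpfS r_TpwS AllE.r_PsnS r_SnrS AllE.r_EvRS

theorem r_O4fr2S : Pool.Agent.B5.O4fr2S :=
  @Pool.Agent.B5.KO67.o4fr2 AllE.r_T2fS AllE.r_F3S AllE.r_RkS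

theorem r_O4sf2S : Pool.Agent.B5.O4sf2S :=
  @Pool.Agent.B5.KO67.o4sf2 AllE.r_SmallS AllE.r_ApaS AllE.r_KmuS AllE.r_RkS AllE.r_VcoS

theorem r_WuS : Pool.Agent.B5.WuS :=
  @Pool.Agent.B5.Nr.Sch.ke_wu 

theorem r_WeS : Pool.Agent.B5.WeS :=
  @Pool.Agent.B5.Nr.Sch.ke_we 

theorem r_WooS : Pool.Agent.B5.WooS :=
  @Pool.Agent.B5.Nr.Sch.ko_woo 

theorem r_O43S : Pool.Agent.B5.O43S :=
  @Pool.Agent.B5.Nr.Sch.o143 r_HpgS AllE.r_PmfS r_LinS AllE.r_EvRS AllE.r_ZfinS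

theorem r_O32aS : Pool.Agent.B5.O32aS :=
  @Pool.Agent.B5.Nr.Sch.o132a r_HpgS AllE.r_PmfS r_LinS AllE.r_EvRS AllE.r_ZfinS

theorem r_O1exS : Pool.Agent.B5.O1exS :=
  @Pool.Agent.B5.Nr.Sch.o1ex 

theorem r_O1tjS : Pool.Agent.B5.O1tjS :=
  @Pool.Agent.B5.Nr.Sch.o1tj 

theorem r_O1ufS : Pool.Agent.B5.O1ufS :=
  @Pool.Agent.B5.Nr.Sch.o1uf 

theorem r_CeS : Pool.Agent.B5.CeS :=
  @Pool.Agent.B5.Nr.Sch.ceS 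

theorem r_CzmS : Pool.Agent.B5.CzmS :=
  @Pool.Agent.B5.H09.sf_czm r_HpgS r_HarS

theorem r_TzaS : Pool.Agent.B5.TzaS :=
  @Pool.Agent.B5.SFH40.tza r_CzmS AllE.r_Nr3S AllE.r_PmfS

theorem r_CzaS : Pool.Agent.B5.CzaS :=
  @Pool.Agent.B5.H98.Cza.sfcza All.r_ZcoS AllE.r_A3bS

theorem r_NbzS : Pool.Agent.B5.NbzS :=
  @Pool.Agent.B5.H38n.nbz AllE.r_EvRS AllE.r_DusS AllE.r_TpfS r_TpwS r_DicS AllE.r_DvcS r_CzaS r_CzmS r_CziS AllE.r_PmfS r_SnrS r_LdzS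

theorem r_GaiS : Pool.Agent.B5.GaiS :=
  @Pool.Agent.B5.H76.sf_gai_st r_CzmS

theorem r_PszRS : Pool.Agent.B5.Nr.PszRS :=
  @Pool.Agent.B5.Nr.E2.psz2 r_PsoS AllE.r_PmfS

theorem r_UniKS : Pool.Agent.B5.UniKS :=
  @Pool.Agent.B5.H33.uniK r_IrrKS

theorem r_FouS : Pool.Agent.B5.FouS :=
  @Pool.Agent.B5.H45.Fou.fou r_UniKS r_DuaS AllE.r_F1S AllE.r_F3S AllE.r_McoS AllE.r_Inj1S r_TopS AllE.r_RaySpanS AllE.r_E2S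

theorem r_OneKS : Pool.Agent.B5.OneKS :=
  @Pool.Agent.B5.H40.one r_UniKS r_DuaS r_TopS AllE.r_RaySpanS AllE.r_E2S

theorem r_PavzS : Pool.Agent.B5.H67.PavzS :=
  @Pool.Agent.B5.H67.pavz AllE.r_PavS r_HarS

theorem r_TrvoS : Pool.Agent.B5.H67.TrvoS :=
  @Pool.Agent.B5.H67.trvo AllE.r_TrgS AllE.r_PaiS r_PavzS AllE.r_PmfS r_SnrS AllE.r_E2S AllE.r_EvRS

theorem r_NbrS : Pool.Agent.B5.NbrS :=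
  @Pool.Agent.B5.H31.Nb.nbr_st r_OneKS AllE.r_F1S AllE.r_McoS AllE.r_Inj1S

theorem r_DtiS : Pool.Agent.B5.DtiS :=
  @Pool.Agent.B5.H02.dti r_FnfS AllE.r_FaceS AllE.r_StSpecS AllE.r_MultiS AllE.r_RaySpanS AllE.r_D2S AllE.r_E2S AllE.r_EvRS AllE.r_ComplS AllE.r_ComplIrrS AllE.r_SharpS AllE.r_UnitAS AllE.r_DensS AllE.r_B4S AllE.r_MinS AllE.r_Coeff0S AllE.r_WWfS AllE.r_ThinS AllE.r_C3S AllE.r_C4S AllE.r_PrimS AllE.r_E1S AllE.r_MVS AllE.r_M1S AllE.r_A1S AllE.r_RkS AllE.r_ResWDS AllE.r_ResStS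

theorem r_B2S : Pool.Agent.B5.H12.B2S :=
  @Pool.Agent.B5.H12.b2 AllE.r_PCZS AllE.r_VZS AllE.r_TrmS r_PszRS AllE.r_PsrS AllE.r_E2S AllE.r_EvRS AllE.r_ZfinS r_LinS

theorem r_TrhS : Pool.Agent.B5.H12.TrhS :=
  @Pool.Agent.B5.H12.trh r_PsbS AllE.r_TrmS r_SnrS AllE.r_E2S AllE.r_EvRS

theorem r_UfgS : Pool.Agent.B5.UfgS :=
  @Pool.Agent.B5.Ufg.ufg_all r_DcmS r_SubzS AllE.r_PrimS AllE.r_G0S AllE.r_RkS AllE.r_E2S AllE.r_FDS AllE.r_SmallS AllE.r_UnitAS AllE.r_MinS AllE.r_MmulS AllE.r_GenS AllE.r_PCZS AllE.r_G4S r_MonoS AllE.r_E1S AllE.r_MVS AllE.r_MultiS AllE.r_StSpecS AllE.r_EvRS AllE.r_A5S AllE.r_A7S AllE.r_B5aS AllE.r_B2cS AllE.r_A3bS AllE.r_ZfinS AllE.r_ComplIrrS AllE.r_ComplS AllE.r_FclS r_EvzS ev11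

theorem r_CcngS : Pool.Agent.B5.CcngS :=
  @Pool.Agent.B5.UfgC.ccng r_CresqS AllE.r_E2S AllE.r_G0S AllE.r_PrimS AllE.r_A5S AllE.r_A7S

theorem r_UfcS : Pool.Agent.B5.UfcS :=
  @Pool.Agent.B5.Uf.ufc r_CcnS r_DcpS AllE.r_B5aS

theorem r_UavS : Pool.Agent.B5.UavS :=
  @Pool.Agent.B5.Uf.uav r_DcmS r_SubzS AllE.r_PrimS AllE.r_G0S AllE.r_RkS AllE.r_E2S AllE.r_FDS AllE.r_SmallS AllE.r_UnitAS AllE.r_MinS AllE.r_MmulS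

theorem r_Fc4S : Pool.Agent.B5.Fc4S :=
  @Pool.Agent.B5.OF64.fc4_st AllE.r_EvRS AllE.r_ZfinS r_FcmS

theorem r_On2S : Pool.Agent.B5.On2S :=
  @Pool.Agent.B5.H24on2.on2 r_CzmS

theorem r_OdtS : Pool.Agent.B5.OdtS :=
  @Pool.Agent.B5.OF40.odt r_CzaS

theorem r_Fc3S : Pool.Agent.B5.Fc3S :=
  @Pool.Agent.B5.OF97.fc3_st AllE.r_EvRS r_FcmS

theorem r_On1S : Pool.Agent.B5.On1S :=
  @Pool.Agent.B5.H79of1.on1 r_CzmS AllE.r_PmfS AllE.r_Nr3S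

theorem r_O4aS : Pool.Agent.B5.O4aS :=
  @Pool.Agent.B5.O4VH29.o4a AllE.r_SmallS AllE.r_QstS AllE.r_Qp3S AllE.r_KerEvS AllE.r_MmulS AllE.r_MVS AllE.r_E1S AllE.r_Db3S AllE.r_Nn3S AllE.r_Hp3S AllE.r_GenS AllE.r_SlEvalS AllE.r_EvRS AllE.r_SharpS AllE.r_DensS AllE.r_ZfinS AllE.r_UnitAS AllE.r_FaceS AllE.r_StSpecS AllE.r_MultiS AllE.r_E2S AllE.r_PrimS AllE.r_B3S AllE.r_FullS AllE.r_Nd3S AllE.r_PsnS r_SnrS AllE.r_G1pS AllE.r_ClpS r_EvzS AllE.r_M1S r_QsgS r_NdwS r_Fc3S AllE.r_McoS r_O4naS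

theorem r_O4typS : Pool.Agent.B5.O4typS :=
  @Pool.Agent.B5.O4H21.o4typ r_OdtS r_QsgS AllE.r_Nd3S r_TzaS r_FjtS AllE.r_Ta3S AllE.r_E1S AllE.r_MVS AllE.r_MmulS AllE.r_QraS AllE.r_Coeff0S AllE.r_B5aS r_MpaS r_MnfS

theorem r_O4t11S : Pool.Agent.B5.O4t11S :=
  @Pool.Agent.B5.O4V52.o4t11 r_FcmS AllE.r_McoS AllE.r_EvRS AllE.r_VcoS AllE.r_FDS r_O4aS AllE.r_WWfS AllE.r_RayFacS AllE.r_ClpS AllE.r_Coeff0S AllE.r_G0S AllE.r_Inj1S AllE.r_E2S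

theorem r_O4nbS : Pool.Agent.B5.O4nbS :=
  @Pool.Agent.B5.O1H42.o4nb r_NbzS

theorem r_KveS : Pool.Agent.B5.KveS :=
  @Pool.Agent.B5.KV.H03.kve r_TsgS r_KvxS AllE.r_FDS AllE.r_Nd3vS AllE.r_E2S AllE.r_E1S AllE.r_MVS AllE.r_Nr3S

theorem r_UfxS : Pool.Agent.B5.UfxS :=
  @Pool.Agent.B5.KV94.ufx_st r_UavS r_UfwS r_UffS r_UfcS

theorem r_KvnS : Pool.Agent.B5.KvnS :=
  @Pool.Agent.B5.KV.H47.kvn AllE.r_SmallS AllE.r_QstS AllE.r_Qp3S AllE.r_KerEvS AllE.r_MmulS AllE.r_MVS AllE.r_E1S AllE.r_Db3S AllE.r_Nn3S AllE.r_Hp3S AllE.r_GenS AllE.r_SlEvalS AllE.r_EvRS AllE.r_SharpS AllE.r_DensS AllE.r_ZfinS AllE.r_UnitAS AllE.r_FaceS AllE.r_StSpecS AllE.r_MultiS AllE.r_E2S AllE.r_PrimS AllE.r_B3S AllE.r_FullS AllE.r_Nd3vS AllE.r_Nr3S AllE.r_FatS r_E3vgS r_TrvoS AllE.r_G1pS r_EvzS ev11 AllE.r_FclS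 AllE.r_ResWDS AllE.r_ResStS

theorem r_DecS : Pool.Agent.B5.BPR.DecS :=
  @Pool.Agent.B5.DecP.decS AllE.r_MultiS AllE.r_StSpecS AllE.r_B2cS AllE.r_G0S AllE.r_EvRS AllE.r_A3bS AllE.r_ZfinS AllE.r_UnitAS AllE.r_ComplIrrS AllE.r_ComplS AllE.r_RkS AllE.r_E2S r_FclwS AllE.r_L2S r_EvzS ev11

theorem r_CtbS : Pool.Agent.B5.BPR.CtbS :=
  @Pool.Agent.B5.DecP.ctbS r_CcngS r_DecS

theorem r_LevS : Pool.Agent.B5.BPR.LevS :=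
  @Pool.Agent.B5.BP80.levS AllE.r_UnitRS AllE.r_E2S AllE.r_VZS AllE.r_Nd3vS r_CresqS r_DecS r_K1S r_AdjS

theorem r_TysS : Pool.Agent.B5.BPR.TysS :=
  @Pool.Agent.B5.BP90.tysS r_K1S AllE.r_Qc3S AllE.r_E2S AllE.r_Nd3vS AllE.r_Qm3S AllE.r_Nr3S r_HpgS AllE.r_Ta3S AllE.r_Um3vS AllE.r_St3S AllE.r_Sw3S AllE.r_EvRS AllE.r_ZfinS AllE.r_Nn3S AllE.r_UnitRS AllE.r_VZS r_LinS r_V1zS AllE.r_FDS AllE.r_G0S AllE.r_UnitAS AllE.r_MinS AllE.r_C1bS AllE.r_MmulS AllE.r_Qp3S AllE.r_KerEvS AllE.r_MVS AllE.r_E1S AllE.r_Db3S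

theorem r_Bv2S : Pool.Agent.B5.Bv2S :=
  @Pool.Agent.B5.BP57.bv2 AllE.r_E2S AllE.r_VZS AllE.r_UnitRS r_V1zS

theorem r_PzS : Pool.Agent.B5.BPR.PzS :=
  @Pool.Agent.B5.BP57.pzS r_LevS r_CntS r_CtbS r_McOneS r_UfgS AllE.r_GenS AllE.r_F2S AllE.r_VcoS AllE.r_FDS AllE.r_E2S AllE.r_VZS AllE.r_UnitRS AllE.r_MVS AllE.r_E1S AllE.r_M1S AllE.r_MmulS AllE.r_G0S AllE.r_Coeff0S AllE.r_WWfS AllE.r_RayFacS AllE.r_QstS AllE.r_QraS AllE.r_MinS AllE.r_B5aS AllE.r_RkS AllE.r_KmuS AllE.r_Qc3S AllE.r_Dv3S AllE.r_Nd3vS AllE.r_D3S AllE.r_G1pS AllE.r_ResWDS AllE.r_ResStS r_EvS AllE.r_EvRS r_EvmS AllE.r_FclS r_CnoS AllE.r_Qm3S AllE.r_Nr3S r_HpgS AllE.r_Ta3S AllE.r_Um3vS AllE.r_St3S AllE.r_Sw3S AllE.r_ZfinS AllE.r_Nn3S AllE.r_SmallS r_V1S AllE.r_UnitAS AllE.r_C1bS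

theorem r_PbS : Pool.Agent.B5.BPR.PbS :=
  @Pool.Agent.B5.BP12.pbS AllE.r_UnitRS r_LevS r_CntS r_CtbS r_PzS r_AdjS

theorem r_StrS : Pool.Agent.B5.BPR.StrS :=
  @Pool.Agent.B5.BP71.strS AllE.r_LMNS AllE.r_RkUSS AllE.r_GenS AllE.r_F1S AllE.r_F2S AllE.r_VcoS AllE.r_D3S AllE.r_A6S AllE.r_MmonoS AllE.r_B5S AllE.r_B2cS AllE.r_FDS AllE.r_E2S AllE.r_VZS AllE.r_UnitRS AllE.r_MVS AllE.r_E1S AllE.r_M1S AllE.r_MmulS AllE.r_G0S AllE.r_Coeff0S AllE.r_WWfS AllE.r_RayFacS AllE.r_QstS AllE.r_QraS AllE.r_MinS AllE.r_B5aS AllE.r_RkS AllE.r_KmuS AllE.r_Qc3S AllE.r_Dv3S AllE.r_Nd3vS AllE.r_G1pS r_FclwS AllE.r_L2S AllE.r_ResWDS AllE.r_ResStS r_EvS r_EvmS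

theorem r_GlcS : Pool.Agent.B5.GlcS :=
  @Pool.Agent.B5.H61.glc_st r_UniKS r_DuaS AllE.r_F3S AllE.r_McoS AllE.r_E2S

theorem r_O4afS : Pool.Agent.B5.O4afS :=
  @Pool.Agent.B5.O4H02.o4af r_O4aS AllE.r_FDS AllE.r_ClpS AllE.r_E1S AllE.r_MVS AllE.r_MmulS AllE.r_Coeff0S AllE.r_G0S AllE.r_WWfS AllE.r_RayFacS AllE.r_Inj1S

theorem r_OfaS : Pool.Agent.B5.OfaS :=
  @Pool.Agent.B5.OFH29.ofa r_OdtS r_On1S r_On2S r_OnuS r_BgrS r_QsgS AllE.r_Nd3S AllE.r_MmulS r_FjtS AllE.r_Nr3S r_NbzS AllE.r_FDS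

theorem r_OfbS : Pool.Agent.B5.OfbS :=
  @Pool.Agent.B5.OFH29.ofb r_OdtS r_On1S r_OndS r_RecS r_Fc3S r_Fc4S r_NdwS r_BgrS r_QsgS AllE.r_Nd3S AllE.r_MmulS AllE.r_Nr3S r_NbzS AllE.r_McoS AllE.r_F3S AllE.r_MVS AllE.r_E1S AllE.r_PCZS AllE.r_ClpS AllE.r_FDS r_Io2S AllE.r_MfcS AllE.r_Ca5S r_GlcS r_FouS r_DtiS

theorem r_Bn2S : Pool.Agent.B5.Bn2S :=
  @Pool.Agent.B5.KO.bn2 r_B2S

theorem r_Rows : Pool.Agent.B5.BP12.Rows :=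
  @Pool.Agent.B5.BP12.Rows.mk r_TysS r_CntS r_PbS r_AdjS r_T2mS r_StrS r_InS r_UfgS

theorem r_TrezS : Pool.Agent.B5.Nr.TrezS :=
  @Pool.Agent.B5.Nr.E2.trez AllE.r_TrmS r_PszRS AllE.r_PmfS r_SnrS AllE.r_E2S AllE.r_EvRS

theorem r_Bn3S : Pool.Agent.B5.Bn3S :=
  @Pool.Agent.B5.H19.B3.all_b3 AllE.r_EvRS AllE.r_ZfinS AllE.r_MmulS AllE.r_MVS AllE.r_DensS AllE.r_SharpS AllE.r_Nn3S AllE.r_Nr3S AllE.r_RkS AllE.r_PCZS AllE.r_MfcS AllE.r_E1S AllE.r_E2S AllE.r_FDS AllE.r_FpRedS r_SllS AllE.r_ClpS AllE.r_G1pS AllE.r_DusS AllE.r_TpfS r_TpwS AllE.r_DvcS AllE.r_PmfS r_TrhS AllE.r_Nd3S AllE.r_Ta3S AllE.r_Um3S AllE.r_St3S AllE.r_Sw3S r_QsgS r_CzaS r_CzmS r_CziS r_TzaS r_FjtS r_DicS r_HpgS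

theorem r_O5aS : Pool.Agent.B5.H67.O5aS :=
  @Pool.Agent.B5.H67.o5a r_E3vgS r_TrvoS AllE.r_Nr3S AllE.r_FatS

theorem r_UfrS : Pool.Agent.B5.UfrS :=
  @Pool.Agent.B5.Uf.ufr r_UavS r_UfwS r_UffS r_UfcS

theorem r_Of1S : Pool.Agent.B5.Of1S :=
  @Pool.Agent.B5.OFH29.of1 r_OdtS r_On1S r_On2S r_OnuS r_BgrS r_QsgS AllE.r_Nd3S AllE.r_MmulS r_FjtS AllE.r_Nr3S r_NbzS AllE.r_FDS

theorem r_O4sf1S : Pool.Agent.B5.O4sf1S :=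
  @Pool.Agent.B5.O4H21.o4sf1 r_O4typS r_O4rayS r_O4t00S r_O4t10S r_O4tnS r_O4t01S r_O4t11S AllE.r_SmallS AllE.r_McoS AllE.r_VcoS

theorem r_O4a2S : Pool.Agent.B5.O4a2S :=
  @Pool.Agent.B5.O4H39.o4a2 AllE.r_SmallS AllE.r_QstS AllE.r_Qp3S AllE.r_KerEvS AllE.r_MmulS AllE.r_MVS AllE.r_E1S AllE.r_Db3S AllE.r_Nn3S AllE.r_EvRS AllE.r_ZfinS AllE.r_Nd3S AllE.r_ClpS AllE.r_F1S AllE.r_McoS AllE.r_RaySpanS AllE.r_E2S AllE.r_Inj1S AllE.r_VcoS AllE.r_I2S AllE.r_F3S r_Fc4S r_O4naS r_GlcS r_FouS r_DtiS r_EvzS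

theorem r_O1iiiS : Pool.Agent.B5.O1iiiS :=
  @Pool.Agent.B5.O1H40.o1iii r_O43S r_O32aS r_Of1S r_QsgS AllE.r_Nd3S AllE.r_Ta3S AllE.r_St3S AllE.r_Sw3S AllE.r_E2S AllE.r_VcoS AllE.r_RkUSS AllE.r_MVS AllE.r_ClpS

theorem r_O1iS : Pool.Agent.B5.O1iS :=
  @Pool.Agent.B5.H73.o1i AllE.r_B5aS AllE.r_MVS r_DcvS r_UfrS r_EvzS r_O1exS r_O1tjS r_O1ufS

theorem r_KvzS : Pool.Agent.B5.KvzS :=
  @Pool.Agent.B5.KV.H4.kvz AllE.r_E2S AllE.r_FDS r_KvnS r_KvxS r_KvjS r_UfxS r_KvyS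

theorem r_BpxS : Pool.Agent.B5.BpxS :=
  @Pool.Agent.B5.BP12.bpxS r_Rows r_V1zS AllE.r_VZS AllE.r_GenS AllE.r_F1S AllE.r_F2S AllE.r_VcoS r_MpaS AllE.r_FacetS AllE.r_ComplIrrS AllE.r_ComplS AllE.r_RkS AllE.r_E1S AllE.r_MVS AllE.r_M1S AllE.r_E2S ev11 r_EvzS AllE.r_D3S r_SymLS r_LatResS AllE.r_UnitRS

theorem r_BpS : Pool.Agent.B5.BpS :=
  @Pool.Agent.B5.bpS_of_bpxS r_BpxS

theorem r_BigzS : Pool.Agent.B5.BigzS :=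
  @Pool.Agent.B5.SFH27.sf_big_st r_QsgS r_CzaS r_TzaS r_FjtS r_GaiS r_NdzS AllE.r_Nd3S AllE.r_Nr3S AllE.r_Ta3S AllE.r_Um3S AllE.r_St3S AllE.r_Sw3S AllE.r_ClpS AllE.r_E1S AllE.r_E2S r_TrezS r_LdzS AllE.r_G1pS AllE.r_MmulS AllE.r_MVS AllE.r_RkS

theorem r_SfzS : Pool.Agent.B5.SfzS :=
  @Pool.Agent.B5.H39.sfz r_BigzS r_NbzS r_LdzS r_CzaS AllE.r_E1S AllE.r_MVS AllE.r_MmulS

theorem r_O4e2S : Pool.Agent.B5.O4e2S :=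
  @Pool.Agent.B5.O4.e2 r_Bv2S r_O4aS r_O4a2S AllE.r_FDS AllE.r_ClpS AllE.r_E1S AllE.r_MVS AllE.r_MmulS

theorem r_O1iiS : Pool.Agent.B5.O1iiS :=
  @Pool.Agent.B5.O1H40.o1ii r_O2mS r_O2cS r_QsgS AllE.r_Nd3S AllE.r_Ta3S AllE.r_St3S AllE.r_Sw3S AllE.r_E2S AllE.r_VcoS AllE.r_RkUSS AllE.r_PCZS AllE.r_E1S AllE.r_MVS AllE.r_MmulS AllE.r_ClpS AllE.r_FDS r_SfzS

theorem r_O4vbS : Pool.Agent.B5.O4vbS :=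
  @Pool.Agent.B5.O1H42.o4vb AllE.r_RkS AllE.r_ClpS AllE.r_Inj1S AllE.r_FDS AllE.r_MugS r_SfzS AllE.r_E1S AllE.r_E2S AllE.r_MVS AllE.r_MmulS AllE.r_PCZS AllE.r_M1S

theorem r_O1bS : Pool.Agent.B5.O1bS :=
  @Pool.Agent.B5.O1.H12.o1b AllE.r_E1S AllE.r_MVS AllE.r_MmulS AllE.r_PCZS AllE.r_ClpS AllE.r_FDS r_SfzS

theorem r_Ob3S : Pool.Agent.B5.Ob3S :=
  @Pool.Agent.B5.KO67.ob3b AllE.r_UnitRS AllE.r_M1S AllE.r_MmulS AllE.r_MVS AllE.r_E1S AllE.r_E2S AllE.r_PCZS AllE.r_ClpS AllE.r_Coeff0S AllE.r_G0S AllE.r_Inj1S AllE.r_Inj2S AllE.r_RkS AllE.r_FDS AllE.r_WWfS AllE.r_RayFacS AllE.r_MugS AllE.r_McoS r_CuspS r_SfzS r_TrezS r_TsaS r_Io3S AllE.r_MfcS AllE.r_Ca5S r_GlcS r_FouS r_DtiS AllE.r_T2fS AllE.r_D2S AllE.r_F1S AllE.r_F3S r_BpS r_O5aS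

theorem r_O4preS : Pool.Agent.B5.O4preS :=
  @Pool.Agent.B5.KO67.o4pre r_O1bS r_TrezS r_WooS r_CuspS

theorem r_Ob2S : Pool.Agent.B5.Ob2S :=
  @Pool.Agent.B5.KO67.ob2 AllE.r_UnitRS AllE.r_MmulS AllE.r_MVS AllE.r_E1S AllE.r_PCZS AllE.r_ClpS AllE.r_Coeff0S AllE.r_G0S AllE.r_Inj1S AllE.r_RkS AllE.r_FDS AllE.r_WWfS AllE.r_RayFacS AllE.r_MugS AllE.r_McoS r_CuspS r_SfzS r_TrezS r_EvzS ev11 AllE.r_FclS r_TsaS r_Io3S AllE.r_MfcS AllE.r_Ca5S r_GlcS r_FouS r_DtiS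

theorem r_KvdS : Pool.Agent.B5.KvdS :=
  @Pool.Agent.B5.KoH25.kvd AllE.r_F1S AllE.r_F2S AllE.r_F3S AllE.r_MxuS r_MnfS r_MpaS AllE.r_McoS AllE.r_Inj1S r_TopS AllE.r_RaySpanS AllE.r_E2S r_RnkS r_SfzS AllE.r_FDS AllE.r_ClpS r_GlcS r_NbrS r_FouS r_KvhS r_KveS

theorem r_Oo1S : Pool.Agent.B5.Oo1S :=
  @Pool.Agent.B5.O1H40.oo1 AllE.r_FDS r_TrezS r_WooS r_O1bS r_O1cS r_O1iS r_O1iiS r_O1iiiS

theorem r_KvaS : Pool.Agent.B5.KvaS :=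
  @Pool.Agent.B5.KV.kva AllE.r_RkUSS AllE.r_E2S AllE.r_LMNS AllE.r_MmulS AllE.r_MVS AllE.r_E1S AllE.r_PCZS AllE.r_ClpS AllE.r_Coeff0S AllE.r_G0S AllE.r_Inj1S AllE.r_RkS AllE.r_FDS AllE.r_WWfS AllE.r_RayFacS AllE.r_MugS AllE.r_McoS r_CuspS r_SfzS r_TrezS r_EvzS r_WuS r_WeS r_CeS r_TsbS r_TsaS r_KvdS r_KvkS r_KvzS

theorem r_KeStS : Pool.Agent.B5.KeStS :=
  @Pool.Agent.B5.KV.kest AllE.r_E2S r_MinSS r_MonoS r_KvaS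

theorem r_O4fr1S : Pool.Agent.B5.O4fr1S :=
  @Pool.Agent.B5.KoH25.o4fr1 AllE.r_F1S AllE.r_F2S AllE.r_F3S AllE.r_MxuS r_MnfS r_MpaS AllE.r_McoS AllE.r_Inj1S r_TopS AllE.r_RaySpanS AllE.r_E2S r_RnkS AllE.r_Inj2S AllE.r_VcoS AllE.r_RkUSS AllE.r_RkS AllE.r_LMNS r_OfaS r_OfbS r_Oo1S r_BpS r_O4afS

theorem r_Oo4S : Pool.Agent.B5.Oo4S :=
  @Pool.Agent.B5.O4V.oo4 AllE.r_FDS AllE.r_McoS r_O4preS r_O4aS r_O4a2S r_O4e2S r_O4vbS r_O4fr1S r_O4fr2S r_O4nbS r_O4sf1S r_O4sf2S r_O4endS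

theorem r_KodnS (h_Ob4S : Pool.Agent.B5.Ob4S) : Pool.Agent.B5.KodnS :=
  @Pool.Agent.B5.KO.kodn AllE.r_E2S r_SelxS AllE.r_McoS r_OfaS r_OfbS r_Oo1S r_Oo4S r_Ob2S r_Ob3S h_Ob4S

theorem r_KoStS (h_Ob4S : Pool.Agent.B5.Ob4S) : Pool.Agent.B5.KoStS :=
  @Pool.Agent.B5.KO.kost AllE.r_E2S r_MinSS r_MonoS (r_KodnS h_Ob4S)

end Pool.Agent.MP_b5021c_nt.AllT3
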