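import Pool.Agent.Lib.MP_b5021c_nt.AllE
import Pool.Agent.Lib.MP_b5021c_nt.BP.H80.Exf
import Pool.Agent.Lib.MP_b5021c_nt.BP.H80.Exj
import Pool.Agent.Lib.MP_b5021c_nt.E.H52.Cnf
import Pool.Agent.Lib.MP_b5021c_nt.E.H52.Cyc
import Pool.Agent.Lib.MP_b5021c_nt.E.H62.AllT3
import Pool.Agent.Lib.MP_b5021c_nt.IfaceOC
import Pool.Agent.Lib.MP_b5021c_nt.KO.H07.R7c
import Pool.Agent.Lib.MP_b5021c_nt.KO.H27.S5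
import Pool.Agent.Lib.MP_b5021c_nt.KO.H29.S5cB
import Pool.Agent.Lib.MP_b5021c_nt.KO.H35.Pre
import Pool.Agent.Lib.MP_b5021c_nt.KO.H39.S5a5
import Pool.Agent.Lib.MP_b5021c_nt.KO.H40.K4a
import Pool.Agent.Lib.MP_b5021c_nt.KO.H42.K4b
import Pool.Agent.Lib.MP_b5021c_nt.KO.H45.Ray
import Pool.Agent.Lib.MP_b5021c_nt.KO.H45.VrS
import Pool.Agent.Lib.MP_b5021c_nt.KO.H58.BeFin
import Pool.Agent.Lib.MP_b5021c_nt.KO.H58.BeGlue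
import Pool.Agent.Lib.MP_b5021c_nt.KO.H62.Desg
import Pool.Agent.Lib.MP_b5021c_nt.KO.H62.Four
import Pool.Agent.Lib.MP_b5021c_nt.KO.H62.Glue2
import Pool.Agent.Lib.MP_b5021c_nt.KO.H62.Oal
import Pool.Agent.Lib.MP_b5021c_nt.KO.H62.Oal2
import Pool.Agent.Lib.MP_b5021c_nt.KO.H62.Split
import Pool.Agent.Lib.MP_b5021c_nt.KO.H62.Tkx
import Pool.Agent.Lib.MP_b5021c_nt.KO.H67.Arc
import Pool.Agent.Lib.MP_b5021c_nt.KO.H67.Vdd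
import Pool.Agent.Lib.MP_b5021c_nt.KO.H67.Vdf
import Pool.Agent.Lib.MP_b5021c_nt.KO.H71.MnaC
import Pool.Agent.Lib.MP_b5021c_nt.KO.H95.V1
import Pool.Agent.Lib.MP_b5021c_nt.KO.H95.V2
import Pool.Agent.Lib.MP_b5021c_nt.KO.H96.Mix
import Pool.Agent.Lib.MP_b5021c_nt.OC.H89.P5
import Pool.Agent.Lib.MP_b5021c_nt.OC.H89.Pair
import Pool.Agent.Lib.MP_b5021c_nt.OC.H89.W3
import Pool.Agent.Lib.MP_b5021c_nt.UF.H02.Cres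

/-!
# MP_b5021c_nt, ALL `θ`: generated assembly of the rows beyond AllT3
-/

namespace Pool.Agent.MP_b5021c_nt.AllT4

theorem r_CnfS : Pool.Agent.B5.CnfS :=
  @Pool.Agent.B5.H52.cnf Pool.Agent.MP_b5021c_nt.AllE.r_F1S Pool.Agent.MP_b5021c_nt.AllE.r_RaySpanS Pool.Agent.MP_b5021c_nt.AllE.r_E2S Pool.Agent.MP_b5021c_nt.AllT3.r_TopS

theorem r_CycS : Pool.Agent.B5.CycS :=
  @Pool.Agent.B5.H52.cyc Pool.Agent.MP_b5021c_nt.AllT3.r_NbrS Pool.Agent.MP_b5021c_nt.AllE.r_McoS Pool.Agent.MP_b5021c_nt.AllE.r_F1S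

theorem r_CrssS : Pool.Agent.B5.CrssS :=
  @Pool.Agent.B5.H02.crss Pool.Agent.MP_b5021c_nt.AllE.r_MultiS Pool.Agent.MP_b5021c_nt.AllE.r_StSpecS Pool.Agent.MP_b5021c_nt.AllE.r_G0S Pool.Agent.MP_b5021c_nt.AllE.r_EvRS Pool.Agent.MP_b5021c_nt.AllE.r_E2S

theorem r_SzcS : Pool.Agent.B5.SzcS :=
  @Pool.Agent.B5.H02.szc 

theorem r_BpfS : Pool.Agent.B5.BP80.BpfS :=
  @Pool.Agent.B5.BP80.bpfS Pool.Agent.MP_b5021c_nt.AllE.r_UnitRS Pool.Agent.MP_b5021c_nt.AllE.r_E2S Pool.Agent.MP_b5021c_nt.AllE.r_VZS Pool.Agent.MP_b5021c_nt.AllT3.r_V1zS Pool.Agent.MP_b5021c_nt.AllT3.r_TysS Pool.Agent.MP_b5021c_nt.AllT3.r_CntS Pool.Agent.MP_b5021c_nt.AllT3.r_CtbS Pool.Agent.MP_b5021c_nt.AllT3.r_UfgS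

theorem r_BxfS : Pool.Agent.B5.OC.BxfS :=
  @Pool.Agent.B5.BP80.oc_bxfS r_BpfS

theorem r_BpdqS : Pool.Agent.B5.KO.H40.BpdqS :=
  @Pool.Agent.B5.BP80.bpdq_all Pool.Agent.MP_b5021c_nt.AllE.r_MultiS Pool.Agent.MP_b5021c_nt.AllE.r_StSpecS Pool.Agent.MP_b5021c_nt.AllE.r_B2cS Pool.Agent.MP_b5021c_nt.AllE.r_G0S Pool.Agent.MP_b5021c_nt.AllE.r_EvRS Pool.Agent.MP_b5021c_nt.AllE.r_A3aS Pool.Agent.MP_b5021c_nt.AllE.r_A3bS Pool.Agent.MP_b5021c_nt.AllE.r_A5S Pool.Agent.MP_b5021c_nt.AllE.r_A6S Pool.Agent.MP_b5021c_nt.AllE.r_A7S Pool.Agent.MP_b5021c_nt.AllE.r_ZfinS Pool.Agent.MP_b5021c_nt.AllE.r_UnitAS Pool.Agent.MP_b5021c_nt.AllE.r_UnitRS Pool.Agent.MP_b5021c_nt.AllE.r_ComplIrrS Pool.Agent.MP_b5021c_nt.AllE.r_ComplS Pool.Agent.MP_b5021c_nt.AllE.r_RkS Pool.Agent.MP_b5021c_nt.AllE.r_FacetS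 Pool.Agent.MP_b5021c_nt.AllE.r_FclS Pool.Agent.MP_b5021c_nt.AllE.r_E2S Pool.Agent.MP_b5021c_nt.AllE.r_VZS Pool.Agent.MP_b5021c_nt.AllE.r_MmulS Pool.Agent.MP_b5021c_nt.AllE.r_MVS Pool.Agent.MP_b5021c_nt.AllE.r_E1S Pool.Agent.MP_b5021c_nt.AllE.r_M1S Pool.Agent.MP_b5021c_nt.AllE.r_MmonoS Pool.Agent.MP_b5021c_nt.AllT3.r_MonoS Pool.Agent.MP_b5021c_nt.AllE.r_Coeff0S Pool.Agent.MP_b5021c_nt.AllE.r_MinS Pool.Agent.MP_b5021c_nt.AllE.r_B3S Pool.Agent.MP_b5021c_nt.AllE.r_B4S Pool.Agent.MP_b5021c_nt.AllE.r_B5aS Pool.Agent.MP_b5021c_nt.AllE.r_B5S Pool.Agent.MP_b5021c_nt.AllE.r_C1S Pool.Agent.MP_b5021c_nt.AllE.r_C1bS Pool.Agent.MP_b5021c_nt.AllE.r_C2S Pool.Agent.MP_b5021c_nt.AllE.r_FullS Pool.Agent.MP_b5021c_nt.AllE.r_PrimS Pool.Agent.MP_b5021c_nt.AllE.r_SharpS Pool.Agent.MP_b5021c_nt.AllE.r_DensS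 Pool.Agent.MP_b5021c_nt.AllE.r_HurS Pool.Agent.MP_b5021c_nt.AllE.r_SlMulS Pool.Agent.MP_b5021c_nt.AllE.r_SlEvalS Pool.Agent.MP_b5021c_nt.AllE.r_KerEvS Pool.Agent.MP_b5021c_nt.AllE.r_FaceS Pool.Agent.MP_b5021c_nt.AllE.r_ResStS Pool.Agent.MP_b5021c_nt.AllE.r_ResWDS Pool.Agent.MP_b5021c_nt.AllE.r_GenS Pool.Agent.MP_b5021c_nt.AllE.r_C4S Pool.Agent.MP_b5021c_nt.AllE.r_FactS Pool.Agent.MP_b5021c_nt.AllE.r_FDS Pool.Agent.MP_b5021c_nt.AllE.r_SmallS Pool.Agent.MP_b5021c_nt.AllE.r_F1S Pool.Agent.MP_b5021c_nt.AllE.r_F2S Pool.Agent.MP_b5021c_nt.AllE.r_VcoS Pool.Agent.MP_b5021c_nt.AllT3.r_MpaS Pool.Agent.MP_b5021c_nt.AllE.r_McoS Pool.Agent.MP_b5021c_nt.AllE.r_D2S Pool.Agent.MP_b5021c_nt.AllE.r_D3S Pool.Agent.MP_b5021c_nt.AllE.r_RkUSS Pool.Agent.MP_b5021c_nt.AllE.r_LMNS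 Pool.Agent.MP_b5021c_nt.AllE.r_WWfS Pool.Agent.MP_b5021c_nt.AllE.r_RayFacS Pool.Agent.MP_b5021c_nt.AllE.r_QstS Pool.Agent.MP_b5021c_nt.AllE.r_QraS Pool.Agent.MP_b5021c_nt.AllE.r_KmuS Pool.Agent.MP_b5021c_nt.AllE.r_G1pS Pool.Agent.MP_b5021c_nt.AllE.r_G4S Pool.Agent.MP_b5021c_nt.AllT3.r_LsnS Pool.Agent.MP_b5021c_nt.AllE.r_L2S Pool.Agent.MP_b5021c_nt.AllT3.r_SymLS Pool.Agent.MP_b5021c_nt.AllT3.r_LatResS Pool.Agent.MP_b5021c_nt.AllT3.r_EvS Pool.Agent.MP_b5021c_nt.AllT3.r_EvmS Pool.Agent.MP_b5021c_nt.AllT3.r_EvzS Pool.Agent.MP_b5021c_nt.AllT3.ev11 Pool.Agent.MP_b5021c_nt.AllE.r_Qc3S Pool.Agent.MP_b5021c_nt.AllE.r_Dv3S Pool.Agent.MP_b5021c_nt.AllE.r_Nd3vS Pool.Agent.MP_b5021c_nt.AllE.r_Qm3S Pool.Agent.MP_b5021c_nt.AllE.r_Nr3S Pool.Agent.MP_b5021c_nt.AllT3.r_HpgS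 Pool.Agent.MP_b5021c_nt.AllE.r_Ta3S Pool.Agent.MP_b5021c_nt.AllE.r_Um3vS Pool.Agent.MP_b5021c_nt.AllE.r_St3S Pool.Agent.MP_b5021c_nt.AllE.r_Sw3S Pool.Agent.MP_b5021c_nt.AllE.r_Nn3S Pool.Agent.MP_b5021c_nt.AllE.r_Qp3S Pool.Agent.MP_b5021c_nt.AllE.r_Db3S Pool.Agent.MP_b5021c_nt.AllE.r_Hp3S Pool.Agent.MP_b5021c_nt.AllE.r_TrgS Pool.Agent.MP_b5021c_nt.AllE.r_PaiS Pool.Agent.MP_b5021c_nt.AllE.r_PavS Pool.Agent.MP_b5021c_nt.AllT3.r_HarS Pool.Agent.MP_b5021c_nt.AllE.r_PmfS Pool.Agent.MP_b5021c_nt.AllE.r_SntS Pool.Agent.MP_b5021c_nt.AllT3.r_LinS Pool.Agent.MP_b5021c_nt.AllT3.r_DcmS Pool.Agent.MP_b5021c_nt.AllT3.r_SubzS Pool.Agent.MP_b5021c_nt.AllE.r_PCZS Pool.Agent.MP_b5021c_nt.AllT3.r_BpxS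

theorem r_W3S : Pool.Agent.B5.OC.W3S :=
  @Pool.Agent.B5.OC89.w3S 

theorem r_W4S : Pool.Agent.B5.OC.W4S :=
  @Pool.Agent.B5.OC89.w4S 

theorem r_Tk3AS : Pool.Agent.B5.KO62.Tk3AS :=
  @Pool.Agent.B5.KO62.tk3as Pool.Agent.MP_b5021c_nt.AllT3.r_TopS Pool.Agent.MP_b5021c_nt.AllT3.r_OfaS Pool.Agent.MP_b5021c_nt.AllT3.r_Oo1S Pool.Agent.MP_b5021c_nt.AllE.r_M1S Pool.Agent.MP_b5021c_nt.AllE.r_MmulS Pool.Agent.MP_b5021c_nt.AllE.r_MVS Pool.Agent.MP_b5021c_nt.AllE.r_E1S Pool.Agent.MP_b5021c_nt.AllE.r_E2S Pool.Agent.MP_b5021c_nt.AllE.r_PCZS Pool.Agent.MP_b5021c_nt.AllE.r_ClpS Pool.Agent.MP_b5021c_nt.AllE.r_Coeff0S Pool.Agent.MP_b5021c_nt.AllE.r_G0S Pool.Agent.MP_b5021c_nt.AllE.r_Inj1S Pool.Agent.MP_b5021c_nt.AllE.r_RkS Pool.Agent.MP_b5021c_nt.AllE.r_FDS Pool.Agent.MP_b5021c_nt.AllE.r_WWfS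 Pool.Agent.MP_b5021c_nt.AllE.r_RayFacS Pool.Agent.MP_b5021c_nt.AllE.r_MugS Pool.Agent.MP_b5021c_nt.AllE.r_McoS Pool.Agent.MP_b5021c_nt.AllT3.r_CuspS Pool.Agent.MP_b5021c_nt.AllT3.r_SfzS Pool.Agent.MP_b5021c_nt.AllT3.r_TrezS Pool.Agent.MP_b5021c_nt.AllT3.r_TsaS Pool.Agent.MP_b5021c_nt.AllT3.r_Io3S Pool.Agent.MP_b5021c_nt.AllE.r_MfcS Pool.Agent.MP_b5021c_nt.AllE.r_Ca5S Pool.Agent.MP_b5021c_nt.AllT3.r_GlcS Pool.Agent.MP_b5021c_nt.AllT3.r_FouS Pool.Agent.MP_b5021c_nt.AllT3.r_DtiS Pool.Agent.MP_b5021c_nt.AllT3.r_NbrS Pool.Agent.MP_b5021c_nt.AllE.r_F1S Pool.Agent.MP_b5021c_nt.AllE.r_F2S Pool.Agent.MP_b5021c_nt.AllE.r_KmuS Pool.Agent.MP_b5021c_nt.AllT3.r_FspS Pool.Agent.MP_b5021c_nt.AllE.r_VcoS Pool.Agent.MP_b5021c_nt.AllE.r_RaySpanS Pool.Agent.MP_b5021c_nt.AllT3.r_KvfS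 Pool.Agent.MP_b5021c_nt.AllT3.r_KvvS Pool.Agent.MP_b5021c_nt.AllT3.r_TsgS Pool.Agent.MP_b5021c_nt.AllE.r_Nd3vS Pool.Agent.MP_b5021c_nt.AllE.r_Nr3S Pool.Agent.MP_b5021c_nt.AllT3.r_BpS Pool.Agent.MP_b5021c_nt.AllE.r_F3S Pool.Agent.MP_b5021c_nt.AllE.r_RkUSS Pool.Agent.MP_b5021c_nt.AllE.r_LMNS Pool.Agent.MP_b5021c_nt.AllT3.r_OfbS Pool.Agent.MP_b5021c_nt.AllT3.r_Oo4S Pool.Agent.MP_b5021c_nt.AllT3.r_Ob2S Pool.Agent.MP_b5021c_nt.AllT3.r_Ob3S Pool.Agent.MP_b5021c_nt.AllT3.r_QsgS Pool.Agent.MP_b5021c_nt.AllT3.r_CzaS Pool.Agent.MP_b5021c_nt.AllT3.r_TzaS Pool.Agent.MP_b5021c_nt.AllT3.r_FjtS Pool.Agent.MP_b5021c_nt.AllT3.r_GaiS Pool.Agent.MP_b5021c_nt.AllT3.r_NdzS Pool.Agent.MP_b5021c_nt.AllE.r_Nd3S Pool.Agent.MP_b5021c_nt.AllE.r_Ta3S Pool.Agent.MP_b5021c_nt.AllT3.r_LdzS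 Pool.Agent.MP_b5021c_nt.AllE.r_ResWDS Pool.Agent.MP_b5021c_nt.AllE.r_ResStS Pool.Agent.MP_b5021c_nt.AllE.r_SmallS Pool.Agent.MP_b5021c_nt.AllT3.r_FcmS Pool.Agent.MP_b5021c_nt.AllE.r_MultiS Pool.Agent.MP_b5021c_nt.AllE.r_StSpecS Pool.Agent.MP_b5021c_nt.AllE.r_FaceS Pool.Agent.MP_b5021c_nt.AllE.r_EvRS Pool.Agent.MP_b5021c_nt.AllE.r_ZfinS Pool.Agent.MP_b5021c_nt.AllE.r_SlEvalS Pool.Agent.MP_b5021c_nt.AllE.r_ComplS Pool.Agent.MP_b5021c_nt.AllE.r_ComplIrrS Pool.Agent.MP_b5021c_nt.AllE.r_SharpS Pool.Agent.MP_b5021c_nt.AllE.r_UnitAS Pool.Agent.MP_b5021c_nt.AllE.r_DensS Pool.Agent.MP_b5021c_nt.AllE.r_B4S Pool.Agent.MP_b5021c_nt.AllE.r_MinS Pool.Agent.MP_b5021c_nt.AllE.r_ThinS Pool.Agent.MP_b5021c_nt.AllE.r_C3S Pool.Agent.MP_b5021c_nt.AllE.r_C4S Pool.Agent.MP_b5021c_nt.AllE.r_PrimS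 Pool.Agent.MP_b5021c_nt.AllE.r_A1S

theorem r_BxdS : Pool.Agent.B5.OC.BxdS :=
  @Pool.Agent.B5.KO62.bxd r_BpdqS

theorem r_L4fS : Pool.Agent.B5.L4fS :=
  @Pool.Agent.B5.KO62.l4f Pool.Agent.MP_b5021c_nt.AllE.r_UnitRS Pool.Agent.MP_b5021c_nt.AllE.r_M1S Pool.Agent.MP_b5021c_nt.AllE.r_MmulS Pool.Agent.MP_b5021c_nt.AllE.r_MVS Pool.Agent.MP_b5021c_nt.AllE.r_E1S Pool.Agent.MP_b5021c_nt.AllE.r_E2S Pool.Agent.MP_b5021c_nt.AllE.r_PCZS Pool.Agent.MP_b5021c_nt.AllE.r_ClpS Pool.Agent.MP_b5021c_nt.AllE.r_Coeff0S Pool.Agent.MP_b5021c_nt.AllE.r_G0S Pool.Agent.MP_b5021c_nt.AllE.r_Inj1S Pool.Agent.MP_b5021c_nt.AllE.r_RkS Pool.Agent.MP_b5021c_nt.AllE.r_FDS Pool.Agent.MP_b5021c_nt.AllE.r_WWfS Pool.Agent.MP_b5021c_nt.AllE.r_RayFacS Pool.Agent.MP_b5021c_nt.AllE.r_MugS Pool.Agent.MP_b5021c_nt.AllE.r_McoS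 Pool.Agent.MP_b5021c_nt.AllT3.r_CuspS Pool.Agent.MP_b5021c_nt.AllT3.r_SfzS Pool.Agent.MP_b5021c_nt.AllT3.r_TrezS Pool.Agent.MP_b5021c_nt.AllT3.r_TsaS Pool.Agent.MP_b5021c_nt.AllT3.r_Io3S Pool.Agent.MP_b5021c_nt.AllE.r_MfcS Pool.Agent.MP_b5021c_nt.AllE.r_Ca5S Pool.Agent.MP_b5021c_nt.AllT3.r_GlcS Pool.Agent.MP_b5021c_nt.AllT3.r_FouS Pool.Agent.MP_b5021c_nt.AllT3.r_DtiS Pool.Agent.MP_b5021c_nt.AllT3.r_NbrS Pool.Agent.MP_b5021c_nt.AllE.r_F1S Pool.Agent.MP_b5021c_nt.AllE.r_F2S Pool.Agent.MP_b5021c_nt.AllE.r_KmuS Pool.Agent.MP_b5021c_nt.AllT3.r_FspS Pool.Agent.MP_b5021c_nt.AllE.r_VcoS Pool.Agent.MP_b5021c_nt.AllE.r_RaySpanS Pool.Agent.MP_b5021c_nt.AllT3.r_KvfS Pool.Agent.MP_b5021c_nt.AllT3.r_KvvS Pool.Agent.MP_b5021c_nt.AllT3.r_TsgS Pool.Agent.MP_b5021c_nt.AllE.r_Nd3vS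 Pool.Agent.MP_b5021c_nt.AllE.r_Nr3S Pool.Agent.MP_b5021c_nt.AllT3.r_RnkS Pool.Agent.MP_b5021c_nt.AllT3.r_O5aS Pool.Agent.MP_b5021c_nt.AllT3.r_BpxS r_BpdqS

theorem r_Df4AS : Pool.Agent.B5.KO62.Df4AS :=
  @Pool.Agent.B5.KO62.df4a Pool.Agent.MP_b5021c_nt.AllT3.r_OfaS Pool.Agent.MP_b5021c_nt.AllT3.r_Oo1S Pool.Agent.MP_b5021c_nt.AllT3.r_TopS Pool.Agent.MP_b5021c_nt.AllT3.r_QsgS Pool.Agent.MP_b5021c_nt.AllT3.r_CzaS Pool.Agent.MP_b5021c_nt.AllT3.r_TzaS Pool.Agent.MP_b5021c_nt.AllT3.r_FjtS Pool.Agent.MP_b5021c_nt.AllT3.r_GaiS Pool.Agent.MP_b5021c_nt.AllT3.r_NdzS Pool.Agent.MP_b5021c_nt.AllE.r_Nd3S Pool.Agent.MP_b5021c_nt.AllE.r_Ta3S Pool.Agent.MP_b5021c_nt.AllT3.r_LdzS Pool.Agent.MP_b5021c_nt.AllE.r_ResWDS Pool.Agent.MP_b5021c_nt.AllE.r_ResStS Pool.Agent.MP_b5021c_nt.AllT3.r_ResKS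 Pool.Agent.MP_b5021c_nt.AllE.r_FactS Pool.Agent.MP_b5021c_nt.AllE.r_C4S Pool.Agent.MP_b5021c_nt.AllE.r_ThinS Pool.Agent.MP_b5021c_nt.AllE.r_MinS Pool.Agent.MP_b5021c_nt.AllE.r_B5aS Pool.Agent.MP_b5021c_nt.AllE.r_UnitAS Pool.Agent.MP_b5021c_nt.AllT3.r_FcmS Pool.Agent.MP_b5021c_nt.AllE.r_M1S Pool.Agent.MP_b5021c_nt.AllE.r_MmulS Pool.Agent.MP_b5021c_nt.AllE.r_MVS Pool.Agent.MP_b5021c_nt.AllE.r_E1S Pool.Agent.MP_b5021c_nt.AllE.r_E2S Pool.Agent.MP_b5021c_nt.AllE.r_PCZS Pool.Agent.MP_b5021c_nt.AllE.r_ClpS Pool.Agent.MP_b5021c_nt.AllE.r_Coeff0S Pool.Agent.MP_b5021c_nt.AllE.r_G0S Pool.Agent.MP_b5021c_nt.AllE.r_Inj1S Pool.Agent.MP_b5021c_nt.AllE.r_RkS Pool.Agent.MP_b5021c_nt.AllE.r_FDS Pool.Agent.MP_b5021c_nt.AllE.r_WWfS Pool.Agent.MP_b5021c_nt.AllE.r_RayFacS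 Pool.Agent.MP_b5021c_nt.AllE.r_MugS Pool.Agent.MP_b5021c_nt.AllE.r_McoS Pool.Agent.MP_b5021c_nt.AllT3.r_CuspS Pool.Agent.MP_b5021c_nt.AllT3.r_SfzS Pool.Agent.MP_b5021c_nt.AllT3.r_TrezS Pool.Agent.MP_b5021c_nt.AllT3.r_TsaS Pool.Agent.MP_b5021c_nt.AllT3.r_Io3S Pool.Agent.MP_b5021c_nt.AllE.r_MfcS Pool.Agent.MP_b5021c_nt.AllE.r_Ca5S Pool.Agent.MP_b5021c_nt.AllT3.r_GlcS Pool.Agent.MP_b5021c_nt.AllT3.r_FouS Pool.Agent.MP_b5021c_nt.AllT3.r_DtiS Pool.Agent.MP_b5021c_nt.AllT3.r_NbrS Pool.Agent.MP_b5021c_nt.AllE.r_F1S Pool.Agent.MP_b5021c_nt.AllE.r_F2S Pool.Agent.MP_b5021c_nt.AllE.r_KmuS Pool.Agent.MP_b5021c_nt.AllT3.r_FspS Pool.Agent.MP_b5021c_nt.AllE.r_VcoS Pool.Agent.MP_b5021c_nt.AllE.r_RaySpanS Pool.Agent.MP_b5021c_nt.AllT3.r_KvfS Pool.Agent.MP_b5021c_nt.AllT3.r_KvvS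 Pool.Agent.MP_b5021c_nt.AllT3.r_TsgS Pool.Agent.MP_b5021c_nt.AllE.r_Nd3vS Pool.Agent.MP_b5021c_nt.AllE.r_Nr3S Pool.Agent.MP_b5021c_nt.AllT3.r_BpS Pool.Agent.MP_b5021c_nt.AllE.r_F3S Pool.Agent.MP_b5021c_nt.AllE.r_RkUSS Pool.Agent.MP_b5021c_nt.AllE.r_LMNS Pool.Agent.MP_b5021c_nt.AllT3.r_OfbS Pool.Agent.MP_b5021c_nt.AllT3.r_Oo4S Pool.Agent.MP_b5021c_nt.AllT3.r_Ob2S Pool.Agent.MP_b5021c_nt.AllT3.r_Ob3S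

theorem r_DisAS : Pool.Agent.B5.KO62.DisAS :=
  @Pool.Agent.B5.KO62.disa Pool.Agent.MP_b5021c_nt.AllE.r_UnitRS Pool.Agent.MP_b5021c_nt.AllE.r_M1S Pool.Agent.MP_b5021c_nt.AllE.r_MmulS Pool.Agent.MP_b5021c_nt.AllE.r_MVS Pool.Agent.MP_b5021c_nt.AllE.r_E1S Pool.Agent.MP_b5021c_nt.AllE.r_E2S Pool.Agent.MP_b5021c_nt.AllE.r_PCZS Pool.Agent.MP_b5021c_nt.AllE.r_ClpS Pool.Agent.MP_b5021c_nt.AllE.r_Coeff0S Pool.Agent.MP_b5021c_nt.AllE.r_G0S Pool.Agent.MP_b5021c_nt.AllE.r_Inj1S Pool.Agent.MP_b5021c_nt.AllE.r_RkS Pool.Agent.MP_b5021c_nt.AllE.r_FDS Pool.Agent.MP_b5021c_nt.AllE.r_WWfS Pool.Agent.MP_b5021c_nt.AllE.r_RayFacS Pool.Agent.MP_b5021c_nt.AllE.r_MugS Pool.Agent.MP_b5021c_nt.AllE.r_McoS Pool.Agent.MP_b5021c_nt.AllT3.r_CuspS Pool.Agent.MP_b5021c_nt.AllT3.r_SfzS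 Pool.Agent.MP_b5021c_nt.AllT3.r_TrezS Pool.Agent.MP_b5021c_nt.AllT3.r_TsaS Pool.Agent.MP_b5021c_nt.AllT3.r_Io3S Pool.Agent.MP_b5021c_nt.AllE.r_MfcS Pool.Agent.MP_b5021c_nt.AllE.r_Ca5S Pool.Agent.MP_b5021c_nt.AllT3.r_GlcS Pool.Agent.MP_b5021c_nt.AllT3.r_FouS Pool.Agent.MP_b5021c_nt.AllT3.r_DtiS Pool.Agent.MP_b5021c_nt.AllE.r_F1S Pool.Agent.MP_b5021c_nt.AllE.r_RaySpanS Pool.Agent.MP_b5021c_nt.AllT3.r_RnkS Pool.Agent.MP_b5021c_nt.AllT3.r_O5aS Pool.Agent.MP_b5021c_nt.AllT3.r_BpxS r_BpdqS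

theorem r_LnAS : Pool.Agent.B5.KO62.LnAS :=
  @Pool.Agent.B5.KO62.lna Pool.Agent.MP_b5021c_nt.AllE.r_MmulS Pool.Agent.MP_b5021c_nt.AllE.r_MVS Pool.Agent.MP_b5021c_nt.AllE.r_E1S Pool.Agent.MP_b5021c_nt.AllE.r_ClpS Pool.Agent.MP_b5021c_nt.AllE.r_Coeff0S Pool.Agent.MP_b5021c_nt.AllE.r_G0S Pool.Agent.MP_b5021c_nt.AllE.r_Inj1S Pool.Agent.MP_b5021c_nt.AllE.r_RkS Pool.Agent.MP_b5021c_nt.AllE.r_FDS Pool.Agent.MP_b5021c_nt.AllE.r_WWfS Pool.Agent.MP_b5021c_nt.AllE.r_RayFacS Pool.Agent.MP_b5021c_nt.AllE.r_MugS Pool.Agent.MP_b5021c_nt.AllE.r_McoS Pool.Agent.MP_b5021c_nt.AllT3.r_TrezS Pool.Agent.MP_b5021c_nt.AllT3.r_TsaS Pool.Agent.MP_b5021c_nt.AllT3.r_FspS Pool.Agent.MP_b5021c_nt.AllE.r_RaySpanS Pool.Agent.MP_b5021c_nt.AllE.r_E2S Pool.Agent.MP_b5021c_nt.AllE.r_F1S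 Pool.Agent.MP_b5021c_nt.AllE.r_VZS Pool.Agent.MP_b5021c_nt.AllE.r_UnitRS Pool.Agent.MP_b5021c_nt.AllE.r_UnitAS Pool.Agent.MP_b5021c_nt.AllE.r_PCZS Pool.Agent.MP_b5021c_nt.AllT3.r_CuspS Pool.Agent.MP_b5021c_nt.AllT3.r_SfzS Pool.Agent.MP_b5021c_nt.AllT3.r_Io3S Pool.Agent.MP_b5021c_nt.AllE.r_MfcS Pool.Agent.MP_b5021c_nt.AllE.r_Ca5S Pool.Agent.MP_b5021c_nt.AllT3.r_GlcS Pool.Agent.MP_b5021c_nt.AllT3.r_FouS Pool.Agent.MP_b5021c_nt.AllT3.r_DtiS Pool.Agent.MP_b5021c_nt.AllT3.r_FcmS Pool.Agent.MP_b5021c_nt.AllE.r_G1pS Pool.Agent.MP_b5021c_nt.AllE.r_ResWDS Pool.Agent.MP_b5021c_nt.AllE.r_ResStS Pool.Agent.MP_b5021c_nt.AllT3.r_EvS Pool.Agent.MP_b5021c_nt.AllT3.r_EvmS Pool.Agent.MP_b5021c_nt.AllE.r_FclS Pool.Agent.MP_b5021c_nt.AllT3.r_MpaS Pool.Agent.MP_b5021c_nt.AllE.r_D2S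 Pool.Agent.MP_b5021c_nt.AllE.r_F2S Pool.Agent.MP_b5021c_nt.AllE.r_MinS Pool.Agent.MP_b5021c_nt.AllE.r_KmuS Pool.Agent.MP_b5021c_nt.AllE.r_SmallS Pool.Agent.MP_b5021c_nt.AllT3.r_EvzS Pool.Agent.MP_b5021c_nt.AllE.r_TrmS Pool.Agent.MP_b5021c_nt.AllT3.r_PszRS Pool.Agent.MP_b5021c_nt.AllE.r_PmfS Pool.Agent.MP_b5021c_nt.AllT3.r_SnrS Pool.Agent.MP_b5021c_nt.AllE.r_EvRS Pool.Agent.MP_b5021c_nt.AllE.r_MultiS Pool.Agent.MP_b5021c_nt.AllE.r_StSpecS r_CnfS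

theorem r_RayS : Pool.Agent.B5.OC.RayS :=
  @Pool.Agent.B5.KO.H45.rayS Pool.Agent.MP_b5021c_nt.AllE.r_RaySpanS Pool.Agent.MP_b5021c_nt.AllE.r_E2S Pool.Agent.MP_b5021c_nt.AllT3.r_FspS Pool.Agent.MP_b5021c_nt.AllT3.r_ResKS Pool.Agent.MP_b5021c_nt.AllE.r_FactS Pool.Agent.MP_b5021c_nt.AllE.r_Coeff0S Pool.Agent.MP_b5021c_nt.AllE.r_E1S Pool.Agent.MP_b5021c_nt.AllE.r_MVS Pool.Agent.MP_b5021c_nt.AllE.r_M1S Pool.Agent.MP_b5021c_nt.AllE.r_C4S Pool.Agent.MP_b5021c_nt.AllE.r_ThinS Pool.Agent.MP_b5021c_nt.AllE.r_F1S Pool.Agent.MP_b5021c_nt.AllE.r_F3S Pool.Agent.MP_b5021c_nt.AllE.r_MinS Pool.Agent.MP_b5021c_nt.AllE.r_B5aS Pool.Agent.MP_b5021c_nt.AllE.r_VcoS Pool.Agent.MP_b5021c_nt.AllE.r_WWfS Pool.Agent.MP_b5021c_nt.AllE.r_UnitAS Pool.Agent.MP_b5021c_nt.AllE.r_Inj1S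 Pool.Agent.MP_b5021c_nt.AllE.r_McoS

theorem r_BetS : Pool.Agent.B5.BetS :=
  @Pool.Agent.B5.KO58.betS_all Pool.Agent.MP_b5021c_nt.AllE.r_E2S Pool.Agent.MP_b5021c_nt.AllE.r_RaySpanS Pool.Agent.MP_b5021c_nt.AllE.r_Inj1S Pool.Agent.MP_b5021c_nt.AllE.r_F1S Pool.Agent.MP_b5021c_nt.AllE.r_F2S Pool.Agent.MP_b5021c_nt.AllE.r_F3S Pool.Agent.MP_b5021c_nt.AllT3.r_FcmS Pool.Agent.MP_b5021c_nt.AllE.r_ZfinS Pool.Agent.MP_b5021c_nt.AllE.r_QstS Pool.Agent.MP_b5021c_nt.AllE.r_MinS Pool.Agent.MP_b5021c_nt.AllE.r_VcoS Pool.Agent.MP_b5021c_nt.AllE.r_WWfS Pool.Agent.MP_b5021c_nt.AllT3.r_TrezS Pool.Agent.MP_b5021c_nt.AllE.r_PCZS Pool.Agent.MP_b5021c_nt.AllE.r_MVS Pool.Agent.MP_b5021c_nt.AllE.r_MmulS Pool.Agent.MP_b5021c_nt.AllE.r_FDS Pool.Agent.MP_b5021c_nt.AllT3.r_NbzS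 Pool.Agent.MP_b5021c_nt.AllT3.r_LdzS Pool.Agent.MP_b5021c_nt.AllT3.r_ResKS Pool.Agent.MP_b5021c_nt.AllE.r_FactS Pool.Agent.MP_b5021c_nt.AllE.r_Coeff0S Pool.Agent.MP_b5021c_nt.AllE.r_E1S Pool.Agent.MP_b5021c_nt.AllE.r_M1S Pool.Agent.MP_b5021c_nt.AllE.r_C4S Pool.Agent.MP_b5021c_nt.AllE.r_ThinS Pool.Agent.MP_b5021c_nt.AllE.r_SmallS Pool.Agent.MP_b5021c_nt.AllE.r_G0S Pool.Agent.MP_b5021c_nt.AllE.r_UnitAS Pool.Agent.MP_b5021c_nt.AllE.r_C1bS Pool.Agent.MP_b5021c_nt.AllE.r_SpjS Pool.Agent.MP_b5021c_nt.AllE.r_ClpS Pool.Agent.MP_b5021c_nt.AllE.r_G1pS Pool.Agent.MP_b5021c_nt.AllE.r_RkUSS Pool.Agent.MP_b5021c_nt.AllE.r_RkS Pool.Agent.MP_b5021c_nt.AllT3.r_EvzS Pool.Agent.MP_b5021c_nt.AllE.r_RayFacS Pool.Agent.MP_b5021c_nt.AllE.r_KmuS Pool.Agent.MP_b5021c_nt.AllT3.r_TsaS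 Pool.Agent.MP_b5021c_nt.AllT3.r_BpxS Pool.Agent.MP_b5021c_nt.AllE.r_Nd3S Pool.Agent.MP_b5021c_nt.AllE.r_Nd3vS

theorem r_K4aS : Pool.Agent.B5.OC.K4aS :=
  @Pool.Agent.B5.KO.H40.k4a Pool.Agent.MP_b5021c_nt.AllE.r_UnitRS Pool.Agent.MP_b5021c_nt.AllE.r_UnitAS Pool.Agent.MP_b5021c_nt.AllE.r_M1S Pool.Agent.MP_b5021c_nt.AllE.r_MmulS Pool.Agent.MP_b5021c_nt.AllE.r_MVS Pool.Agent.MP_b5021c_nt.AllE.r_E1S Pool.Agent.MP_b5021c_nt.AllE.r_E2S Pool.Agent.MP_b5021c_nt.AllE.r_PCZS Pool.Agent.MP_b5021c_nt.AllE.r_ClpS Pool.Agent.MP_b5021c_nt.AllE.r_Coeff0S Pool.Agent.MP_b5021c_nt.AllE.r_G0S Pool.Agent.MP_b5021c_nt.AllE.r_Inj1S Pool.Agent.MP_b5021c_nt.AllE.r_RkS Pool.Agent.MP_b5021c_nt.AllE.r_FDS Pool.Agent.MP_b5021c_nt.AllE.r_WWfS Pool.Agent.MP_b5021c_nt.AllE.r_RayFacS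 Pool.Agent.MP_b5021c_nt.AllE.r_MugS Pool.Agent.MP_b5021c_nt.AllE.r_McoS Pool.Agent.MP_b5021c_nt.AllT3.r_TrezS Pool.Agent.MP_b5021c_nt.AllT3.r_TsaS Pool.Agent.MP_b5021c_nt.AllE.r_MfcS Pool.Agent.MP_b5021c_nt.AllE.r_F1S Pool.Agent.MP_b5021c_nt.AllE.r_F2S Pool.Agent.MP_b5021c_nt.AllE.r_F3S Pool.Agent.MP_b5021c_nt.AllE.r_RaySpanS Pool.Agent.MP_b5021c_nt.AllT3.r_RnkS Pool.Agent.MP_b5021c_nt.AllT3.r_O5aS Pool.Agent.MP_b5021c_nt.AllT3.r_FspS Pool.Agent.MP_b5021c_nt.AllT3.r_ResKS Pool.Agent.MP_b5021c_nt.AllE.r_FactS Pool.Agent.MP_b5021c_nt.AllE.r_C4S Pool.Agent.MP_b5021c_nt.AllE.r_ThinS Pool.Agent.MP_b5021c_nt.AllE.r_MinS Pool.Agent.MP_b5021c_nt.AllE.r_B5aS Pool.Agent.MP_b5021c_nt.AllE.r_VcoS Pool.Agent.MP_b5021c_nt.AllT3.r_BpxS r_BxdS r_BxfS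

theorem r_M1AS : Pool.Agent.B5.KO62.M1AS :=
  @Pool.Agent.B5.R7.m1a Pool.Agent.MP_b5021c_nt.AllT3.r_FcmS Pool.Agent.MP_b5021c_nt.AllE.r_EvRS Pool.Agent.MP_b5021c_nt.AllE.r_LsmS Pool.Agent.MP_b5021c_nt.AllT3.ev11 Pool.Agent.MP_b5021c_nt.AllT3.r_RnkS Pool.Agent.MP_b5021c_nt.AllT3.r_O5aS Pool.Agent.MP_b5021c_nt.AllE.r_G1pS Pool.Agent.MP_b5021c_nt.AllE.r_ResWDS Pool.Agent.MP_b5021c_nt.AllE.r_ResStS Pool.Agent.MP_b5021c_nt.AllT3.r_EvS Pool.Agent.MP_b5021c_nt.AllT3.r_EvmS Pool.Agent.MP_b5021c_nt.AllE.r_FclS Pool.Agent.MP_b5021c_nt.AllT3.r_CnoS Pool.Agent.MP_b5021c_nt.AllT3.r_MpaS Pool.Agent.MP_b5021c_nt.AllE.r_VZS Pool.Agent.MP_b5021c_nt.AllE.r_UnitRS Pool.Agent.MP_b5021c_nt.AllE.r_QstS Pool.Agent.MP_b5021c_nt.AllE.r_QraS Pool.Agent.MP_b5021c_nt.AllE.r_MinS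 Pool.Agent.MP_b5021c_nt.AllE.r_B5aS Pool.Agent.MP_b5021c_nt.AllE.r_Qc3S Pool.Agent.MP_b5021c_nt.AllE.r_Dv3S Pool.Agent.MP_b5021c_nt.AllE.r_LMNS Pool.Agent.MP_b5021c_nt.AllE.r_RkUSS Pool.Agent.MP_b5021c_nt.AllE.r_D2S Pool.Agent.MP_b5021c_nt.AllE.r_SmallS Pool.Agent.MP_b5021c_nt.AllT3.r_EvzS Pool.Agent.MP_b5021c_nt.AllT3.r_KvxS Pool.Agent.MP_b5021c_nt.AllE.r_UnitAS Pool.Agent.MP_b5021c_nt.AllE.r_M1S Pool.Agent.MP_b5021c_nt.AllE.r_MmulS Pool.Agent.MP_b5021c_nt.AllE.r_MVS Pool.Agent.MP_b5021c_nt.AllE.r_E1S Pool.Agent.MP_b5021c_nt.AllE.r_E2S Pool.Agent.MP_b5021c_nt.AllE.r_PCZS Pool.Agent.MP_b5021c_nt.AllE.r_ClpS Pool.Agent.MP_b5021c_nt.AllE.r_Coeff0S Pool.Agent.MP_b5021c_nt.AllE.r_G0S Pool.Agent.MP_b5021c_nt.AllE.r_Inj1S Pool.Agent.MP_b5021c_nt.AllE.r_RkS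 Pool.Agent.MP_b5021c_nt.AllE.r_FDS Pool.Agent.MP_b5021c_nt.AllE.r_WWfS Pool.Agent.MP_b5021c_nt.AllE.r_RayFacS Pool.Agent.MP_b5021c_nt.AllE.r_MugS Pool.Agent.MP_b5021c_nt.AllE.r_McoS Pool.Agent.MP_b5021c_nt.AllT3.r_CuspS Pool.Agent.MP_b5021c_nt.AllT3.r_SfzS Pool.Agent.MP_b5021c_nt.AllT3.r_TrezS Pool.Agent.MP_b5021c_nt.AllT3.r_TsaS Pool.Agent.MP_b5021c_nt.AllT3.r_Io3S Pool.Agent.MP_b5021c_nt.AllE.r_MfcS Pool.Agent.MP_b5021c_nt.AllE.r_Ca5S Pool.Agent.MP_b5021c_nt.AllT3.r_GlcS Pool.Agent.MP_b5021c_nt.AllT3.r_FouS Pool.Agent.MP_b5021c_nt.AllT3.r_DtiS Pool.Agent.MP_b5021c_nt.AllT3.r_NbrS Pool.Agent.MP_b5021c_nt.AllE.r_F1S Pool.Agent.MP_b5021c_nt.AllE.r_F2S Pool.Agent.MP_b5021c_nt.AllE.r_KmuS Pool.Agent.MP_b5021c_nt.AllT3.r_FspS Pool.Agent.MP_b5021c_nt.AllE.r_VcoS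 Pool.Agent.MP_b5021c_nt.AllE.r_RaySpanS Pool.Agent.MP_b5021c_nt.AllT3.r_KvfS Pool.Agent.MP_b5021c_nt.AllT3.r_KvvS Pool.Agent.MP_b5021c_nt.AllT3.r_TsgS Pool.Agent.MP_b5021c_nt.AllE.r_Nd3vS Pool.Agent.MP_b5021c_nt.AllE.r_Nr3S Pool.Agent.MP_b5021c_nt.AllT3.r_BpS

theorem r_PreS : Pool.Agent.B5.OC.PreS :=
  @Pool.Agent.B5.OC.pre Pool.Agent.MP_b5021c_nt.AllE.r_MVS Pool.Agent.MP_b5021c_nt.AllE.r_MmulS Pool.Agent.MP_b5021c_nt.AllE.r_E1S Pool.Agent.MP_b5021c_nt.AllE.r_PCZS Pool.Agent.MP_b5021c_nt.AllE.r_ClpS Pool.Agent.MP_b5021c_nt.AllE.r_FDS Pool.Agent.MP_b5021c_nt.AllT3.r_SfzS Pool.Agent.MP_b5021c_nt.AllT3.r_Io3S Pool.Agent.MP_b5021c_nt.AllE.r_MfcS Pool.Agent.MP_b5021c_nt.AllE.r_Ca5S Pool.Agent.MP_b5021c_nt.AllT3.r_GlcS Pool.Agent.MP_b5021c_nt.AllT3.r_FouS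 Pool.Agent.MP_b5021c_nt.AllT3.r_DtiS Pool.Agent.MP_b5021c_nt.AllT3.r_CuspS

theorem r_S5cS : Pool.Agent.B5.OC.S5cS :=
  @Pool.Agent.B5.OC29.s5c Pool.Agent.MP_b5021c_nt.AllT3.r_TsgS Pool.Agent.MP_b5021c_nt.AllE.r_Nd3S Pool.Agent.MP_b5021c_nt.AllE.r_SmallS Pool.Agent.MP_b5021c_nt.AllE.r_RayFacS Pool.Agent.MP_b5021c_nt.AllE.r_G0S Pool.Agent.MP_b5021c_nt.AllE.r_Coeff0S Pool.Agent.MP_b5021c_nt.AllE.r_WWfS Pool.Agent.MP_b5021c_nt.AllE.r_E1S Pool.Agent.MP_b5021c_nt.AllE.r_MVS Pool.Agent.MP_b5021c_nt.AllE.r_RkUSS Pool.Agent.MP_b5021c_nt.AllE.r_LMNS Pool.Agent.MP_b5021c_nt.AllE.r_McoS Pool.Agent.MP_b5021c_nt.AllE.r_FDS Pool.Agent.MP_b5021c_nt.AllE.r_MmulS Pool.Agent.MP_b5021c_nt.AllE.r_RkS Pool.Agent.MP_b5021c_nt.AllT3.r_EvzS Pool.Agent.MP_b5021c_nt.AllT3.ev11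 Pool.Agent.MP_b5021c_nt.AllE.r_FclS Pool.Agent.MP_b5021c_nt.AllE.r_UnitRS Pool.Agent.MP_b5021c_nt.AllE.r_M1S Pool.Agent.MP_b5021c_nt.AllE.r_E2S Pool.Agent.MP_b5021c_nt.AllE.r_RaySpanS Pool.Agent.MP_b5021c_nt.AllT3.r_FspS Pool.Agent.MP_b5021c_nt.AllE.r_PCZS Pool.Agent.MP_b5021c_nt.AllT3.r_SfzS Pool.Agent.MP_b5021c_nt.AllE.r_ClpS

theorem r_VdfS : Pool.Agent.B5.OC.VdfS :=
  @Pool.Agent.B5.KO67.vdfS Pool.Agent.MP_b5021c_nt.AllT3.r_ResKS Pool.Agent.MP_b5021c_nt.AllE.r_FactS Pool.Agent.MP_b5021c_nt.AllE.r_Coeff0S Pool.Agent.MP_b5021c_nt.AllE.r_E1S Pool.Agent.MP_b5021c_nt.AllE.r_MVS Pool.Agent.MP_b5021c_nt.AllE.r_M1S Pool.Agent.MP_b5021c_nt.AllE.r_C4S Pool.Agent.MP_b5021c_nt.AllE.r_E2S Pool.Agent.MP_b5021c_nt.AllE.r_ThinS Pool.Agent.MP_b5021c_nt.AllE.r_F1S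 Pool.Agent.MP_b5021c_nt.AllE.r_F3S Pool.Agent.MP_b5021c_nt.AllE.r_MinS Pool.Agent.MP_b5021c_nt.AllE.r_B5aS Pool.Agent.MP_b5021c_nt.AllE.r_VcoS Pool.Agent.MP_b5021c_nt.AllE.r_WWfS Pool.Agent.MP_b5021c_nt.AllE.r_UnitAS Pool.Agent.MP_b5021c_nt.AllE.r_Inj1S Pool.Agent.MP_b5021c_nt.AllE.r_McoS Pool.Agent.MP_b5021c_nt.AllE.r_RkS r_CnfS

theorem r_VddS : Pool.Agent.B5.OC.VddS :=
  @Pool.Agent.B5.KO67.vddS Pool.Agent.MP_b5021c_nt.AllE.r_UnitRS Pool.Agent.MP_b5021c_nt.AllE.r_M1S Pool.Agent.MP_b5021c_nt.AllE.r_MmulS Pool.Agent.MP_b5021c_nt.AllE.r_MVS Pool.Agent.MP_b5021c_nt.AllE.r_E1S Pool.Agent.MP_b5021c_nt.AllE.r_E2S Pool.Agent.MP_b5021c_nt.AllE.r_PCZS Pool.Agent.MP_b5021c_nt.AllE.r_ClpS Pool.Agent.MP_b5021c_nt.AllE.r_Coeff0S Pool.Agent.MP_b5021c_nt.AllE.r_G0S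 Pool.Agent.MP_b5021c_nt.AllE.r_Inj1S Pool.Agent.MP_b5021c_nt.AllE.r_RkS Pool.Agent.MP_b5021c_nt.AllE.r_FDS Pool.Agent.MP_b5021c_nt.AllE.r_WWfS Pool.Agent.MP_b5021c_nt.AllE.r_RayFacS Pool.Agent.MP_b5021c_nt.AllE.r_MugS Pool.Agent.MP_b5021c_nt.AllE.r_McoS Pool.Agent.MP_b5021c_nt.AllT3.r_TrezS Pool.Agent.MP_b5021c_nt.AllT3.r_TsaS Pool.Agent.MP_b5021c_nt.AllE.r_MfcS Pool.Agent.MP_b5021c_nt.AllT3.r_RnkS Pool.Agent.MP_b5021c_nt.AllT3.r_O5aS r_CnfS Pool.Agent.MP_b5021c_nt.AllT3.r_FcmS r_VdfS r_RayS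

theorem r_ArcS : Pool.Agent.B5.OC.ArcS :=
  @Pool.Agent.B5.KO67.arcS Pool.Agent.MP_b5021c_nt.AllE.r_McoS r_CnfS

theorem r_K4bS : Pool.Agent.B5.OC.K4bS :=
  @Pool.Agent.B5.OC.H42.k4b 

theorem r_W2S : Pool.Agent.B5.OC.W2S :=
  @Pool.Agent.B5.KO.H95.v2 

theorem r_W1S : Pool.Agent.B5.OC.W1S :=
  @Pool.Agent.B5.KO.H95.v1 

theorem r_MnAS : Pool.Agent.B5.KO62.MnAS :=
  @Pool.Agent.B5.KO.H71.mnas Pool.Agent.MP_b5021c_nt.AllT3.r_DcmS Pool.Agent.MP_b5021c_nt.AllT3.r_SubzS Pool.Agent.MP_b5021c_nt.AllE.r_PrimS Pool.Agent.MP_b5021c_nt.AllE.r_GenS Pool.Agent.MP_b5021c_nt.AllE.r_G4S Pool.Agent.MP_b5021c_nt.AllT3.r_MonoS r_CrssS r_SzcS Pool.Agent.MP_b5021c_nt.AllT3.r_RnkS Pool.Agent.MP_b5021c_nt.AllT3.r_O5aS Pool.Agent.MP_b5021c_nt.AllE.r_TrmS Pool.Agent.MP_b5021c_nt.AllT3.r_PszRS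 Pool.Agent.MP_b5021c_nt.AllE.r_PmfS Pool.Agent.MP_b5021c_nt.AllT3.r_SnrS Pool.Agent.MP_b5021c_nt.AllE.r_EvRS Pool.Agent.MP_b5021c_nt.AllE.r_MultiS Pool.Agent.MP_b5021c_nt.AllE.r_StSpecS r_CnfS Pool.Agent.MP_b5021c_nt.AllE.r_G1pS Pool.Agent.MP_b5021c_nt.AllE.r_ResWDS Pool.Agent.MP_b5021c_nt.AllE.r_ResStS Pool.Agent.MP_b5021c_nt.AllT3.r_EvS Pool.Agent.MP_b5021c_nt.AllT3.r_EvmS Pool.Agent.MP_b5021c_nt.AllE.r_FclS Pool.Agent.MP_b5021c_nt.AllT3.r_CnoS Pool.Agent.MP_b5021c_nt.AllT3.r_MpaS Pool.Agent.MP_b5021c_nt.AllE.r_VZS Pool.Agent.MP_b5021c_nt.AllE.r_UnitRS Pool.Agent.MP_b5021c_nt.AllE.r_QstS Pool.Agent.MP_b5021c_nt.AllE.r_QraS Pool.Agent.MP_b5021c_nt.AllE.r_MinS Pool.Agent.MP_b5021c_nt.AllE.r_B5aS Pool.Agent.MP_b5021c_nt.AllE.r_Qc3S Pool.Agent.MP_b5021c_nt.AllE.r_Dv3S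 Pool.Agent.MP_b5021c_nt.AllE.r_LMNS Pool.Agent.MP_b5021c_nt.AllE.r_RkUSS Pool.Agent.MP_b5021c_nt.AllE.r_D2S Pool.Agent.MP_b5021c_nt.AllE.r_SmallS Pool.Agent.MP_b5021c_nt.AllT3.r_EvzS Pool.Agent.MP_b5021c_nt.AllT3.r_KvxS Pool.Agent.MP_b5021c_nt.AllE.r_UnitAS Pool.Agent.MP_b5021c_nt.AllE.r_M1S Pool.Agent.MP_b5021c_nt.AllE.r_MmulS Pool.Agent.MP_b5021c_nt.AllE.r_MVS Pool.Agent.MP_b5021c_nt.AllE.r_E1S Pool.Agent.MP_b5021c_nt.AllE.r_E2S Pool.Agent.MP_b5021c_nt.AllE.r_PCZS Pool.Agent.MP_b5021c_nt.AllE.r_ClpS Pool.Agent.MP_b5021c_nt.AllE.r_Coeff0S Pool.Agent.MP_b5021c_nt.AllE.r_G0S Pool.Agent.MP_b5021c_nt.AllE.r_Inj1S Pool.Agent.MP_b5021c_nt.AllE.r_RkS Pool.Agent.MP_b5021c_nt.AllE.r_FDS Pool.Agent.MP_b5021c_nt.AllE.r_WWfS Pool.Agent.MP_b5021c_nt.AllE.r_RayFacS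 Pool.Agent.MP_b5021c_nt.AllE.r_MugS Pool.Agent.MP_b5021c_nt.AllE.r_McoS Pool.Agent.MP_b5021c_nt.AllT3.r_CuspS Pool.Agent.MP_b5021c_nt.AllT3.r_SfzS Pool.Agent.MP_b5021c_nt.AllT3.r_TrezS Pool.Agent.MP_b5021c_nt.AllT3.r_TsaS Pool.Agent.MP_b5021c_nt.AllT3.r_Io3S Pool.Agent.MP_b5021c_nt.AllE.r_MfcS Pool.Agent.MP_b5021c_nt.AllE.r_Ca5S Pool.Agent.MP_b5021c_nt.AllT3.r_GlcS Pool.Agent.MP_b5021c_nt.AllT3.r_FouS Pool.Agent.MP_b5021c_nt.AllT3.r_DtiS Pool.Agent.MP_b5021c_nt.AllT3.r_NbrS Pool.Agent.MP_b5021c_nt.AllE.r_F1S Pool.Agent.MP_b5021c_nt.AllE.r_F2S Pool.Agent.MP_b5021c_nt.AllE.r_KmuS Pool.Agent.MP_b5021c_nt.AllT3.r_FspS Pool.Agent.MP_b5021c_nt.AllE.r_VcoS Pool.Agent.MP_b5021c_nt.AllE.r_RaySpanS Pool.Agent.MP_b5021c_nt.AllT3.r_KvfS Pool.Agent.MP_b5021c_nt.AllT3.r_KvvS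 Pool.Agent.MP_b5021c_nt.AllT3.r_TsgS Pool.Agent.MP_b5021c_nt.AllE.r_Nd3vS Pool.Agent.MP_b5021c_nt.AllE.r_Nr3S Pool.Agent.MP_b5021c_nt.AllT3.r_BpS

theorem r_S5aS : Pool.Agent.B5.OC.S5aS :=
  @Pool.Agent.B5.KO.H39.s5a Pool.Agent.MP_b5021c_nt.AllE.r_M1S Pool.Agent.MP_b5021c_nt.AllE.r_MmulS Pool.Agent.MP_b5021c_nt.AllE.r_MVS Pool.Agent.MP_b5021c_nt.AllE.r_E1S Pool.Agent.MP_b5021c_nt.AllE.r_E2S Pool.Agent.MP_b5021c_nt.AllE.r_ClpS Pool.Agent.MP_b5021c_nt.AllE.r_Coeff0S Pool.Agent.MP_b5021c_nt.AllE.r_G0S Pool.Agent.MP_b5021c_nt.AllE.r_Inj1S Pool.Agent.MP_b5021c_nt.AllE.r_RkS Pool.Agent.MP_b5021c_nt.AllE.r_FDS Pool.Agent.MP_b5021c_nt.AllE.r_WWfS Pool.Agent.MP_b5021c_nt.AllE.r_RayFacS Pool.Agent.MP_b5021c_nt.AllE.r_MugS Pool.Agent.MP_b5021c_nt.AllE.r_McoS Pool.Agent.MP_b5021c_nt.AllT3.r_TrezS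 Pool.Agent.MP_b5021c_nt.AllT3.r_TsaS Pool.Agent.MP_b5021c_nt.AllE.r_RaySpanS Pool.Agent.MP_b5021c_nt.AllT3.r_FspS Pool.Agent.MP_b5021c_nt.AllE.r_F1S Pool.Agent.MP_b5021c_nt.AllE.r_VcoS Pool.Agent.MP_b5021c_nt.AllE.r_RkUSS Pool.Agent.MP_b5021c_nt.AllE.r_LMNS Pool.Agent.MP_b5021c_nt.AllE.r_EvRS Pool.Agent.MP_b5021c_nt.AllE.r_VZS Pool.Agent.MP_b5021c_nt.AllE.r_Nd3vS Pool.Agent.MP_b5021c_nt.AllT3.r_EvzS Pool.Agent.MP_b5021c_nt.AllT3.ev11 Pool.Agent.MP_b5021c_nt.AllT3.r_TsgS Pool.Agent.MP_b5021c_nt.AllT3.r_FcmS Pool.Agent.MP_b5021c_nt.AllE.r_MfcS Pool.Agent.MP_b5021c_nt.AllE.r_Nr3S Pool.Agent.MP_b5021c_nt.AllT3.r_BpxS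

theorem r_Ob44S : Pool.Agent.B5.Ob44S :=
  @Pool.Agent.B5.KO62.ob44' Pool.Agent.MP_b5021c_nt.AllE.r_E2S Pool.Agent.MP_b5021c_nt.AllE.r_F3S Pool.Agent.MP_b5021c_nt.AllE.r_RkUSS Pool.Agent.MP_b5021c_nt.AllE.r_LMNS Pool.Agent.MP_b5021c_nt.AllE.r_McoS Pool.Agent.MP_b5021c_nt.AllT3.r_OfaS Pool.Agent.MP_b5021c_nt.AllT3.r_OfbS Pool.Agent.MP_b5021c_nt.AllT3.r_Oo1S Pool.Agent.MP_b5021c_nt.AllT3.r_Oo4S Pool.Agent.MP_b5021c_nt.AllT3.r_Ob2S Pool.Agent.MP_b5021c_nt.AllT3.r_Ob3S Pool.Agent.MP_b5021c_nt.AllT3.r_SfzS Pool.Agent.MP_b5021c_nt.AllE.r_ClpS r_CycS r_L4fS r_PreS r_K4aS r_K4bS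

theorem r_Oal3S : Pool.Agent.B5.KO.H96.Oal3S :=
  @Pool.Agent.B5.KO62.oal3 r_Tk3AS r_Df4AS r_DisAS r_LnAS r_M1AS r_MnAS

theorem r_VrS : Pool.Agent.B5.OC.VrS :=
  @Pool.Agent.B5.KO.H45.vrS Pool.Agent.MP_b5021c_nt.AllE.r_FDS Pool.Agent.MP_b5021c_nt.AllE.r_SmallS Pool.Agent.MP_b5021c_nt.AllE.r_RayFacS Pool.Agent.MP_b5021c_nt.AllE.r_E1S Pool.Agent.MP_b5021c_nt.AllE.r_E2S Pool.Agent.MP_b5021c_nt.AllE.r_MVS Pool.Agent.MP_b5021c_nt.AllE.r_McoS Pool.Agent.MP_b5021c_nt.AllE.r_RaySpanS r_VddS r_RayS Pool.Agent.MP_b5021c_nt.AllT3.r_BpxS r_BxdS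

theorem r_Ob4bS : Pool.Agent.B5.Ob4bS :=
  @Pool.Agent.B5.KO58.ob4b_of_bet Pool.Agent.MP_b5021c_nt.AllE.r_E2S Pool.Agent.MP_b5021c_nt.AllT3.r_OfaS Pool.Agent.MP_b5021c_nt.AllT3.r_Oo1S r_BetS

theorem r_P5S : Pool.Agent.B5.OC.P5S :=
  @Pool.Agent.B5.OC89.p5S Pool.Agent.MP_b5021c_nt.AllT3.r_FcmS r_VrS

theorem r_S5S : Pool.Agent.B5.OC.S5S :=
  @Pool.Agent.B5.OC27.s5 r_ArcS r_P5S r_S5aS r_W1S r_VrS r_W2S r_S5cS r_W3S r_W4S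

theorem r_Ob45S : Pool.Agent.B5.Ob45S :=
  @Pool.Agent.B5.OC.ob45 r_PreS r_S5S

theorem r_Ob4aS : Pool.Agent.B5.Ob4aS :=
  @Pool.Agent.B5.KO.H96.ob4a_of Pool.Agent.MP_b5021c_nt.AllE.r_E2S Pool.Agent.MP_b5021c_nt.AllE.r_F3S Pool.Agent.MP_b5021c_nt.AllE.r_RkUSS Pool.Agent.MP_b5021c_nt.AllE.r_LMNS Pool.Agent.MP_b5021c_nt.AllE.r_McoS Pool.Agent.MP_b5021c_nt.AllT3.r_OfaS Pool.Agent.MP_b5021c_nt.AllT3.r_OfbS Pool.Agent.MP_b5021c_nt.AllT3.r_Oo1S Pool.Agent.MP_b5021c_nt.AllT3.r_Oo4S Pool.Agent.MP_b5021c_nt.AllT3.r_Ob2S Pool.Agent.MP_b5021c_nt.AllT3.r_Ob3S Pool.Agent.MP_b5021c_nt.AllT3.r_SfzS Pool.Agent.MP_b5021c_nt.AllE.r_ClpS r_CycS r_Ob45S r_Oal3S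

theorem r_Ob4S : Pool.Agent.B5.Ob4S :=
  @Pool.Agent.B5.ob4_split4 r_CycS Pool.Agent.MP_b5021c_nt.AllT3.r_SfzS Pool.Agent.MP_b5021c_nt.AllE.r_ClpS r_Ob45S r_Ob4bS r_Ob4aS r_Ob44S

end Pool.Agent.MP_b5021c_nt.AllT4
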